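import Pool.Agent.Helper30_Simp.Stmts

/-!
# The chain of formal powers
-/

set_option autoImplicit false
set_option linter.unusedVariables false
set_option linter.unusedSectionVars false

namespace Pool.Agent.Helper30_Simp

open MvPolynomial Pool.Agent.Helper6_Mono

section chain

variable {σ : Type} [Fintype σ] {E : Type} [CommRing E] [Algebra ℂ E]

/-- shifts by exponent vectors -/
def monHom (σ E : Type) [CommRing E] [Algebra ℂ E] :
    Multiplicative (σ →₀ ℕ) →* Module.End E ((σ → ℤ) → E) where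
  toFun a :=
    { toFun := fun F w => F (fun i => w i + (a.toAdd i : ℤ))
      map_add' := fun F G => rfl
      map_smul' := fun c F => rfl }
  map_one' := by
    refine LinearMap.ext fun F => funext fun w => ?_
    show F (fun i => w i + ((0 : σ →₀ ℕ) i : ℤ)) = F w
    congr 1
    funext i
    simp
  map_mul' a b := by
    refine LinearMap.ext fun F => funext fun w => ?_
    show F (fun i => w i + ((a.toAdd + b.toAdd : σ →₀ ℕ) i : ℤ))
      = F (fun i => w i + (a.toAdd i : ℤ) + (b.toAdd i : ℤ))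
    congr 1
    funext i
    rw [Finsupp.add_apply]
    push_cast
    ring

/-- the action of polynomials on functions -/
noncomputable def actF (σ E : Type) [CommRing E] [Algebra ℂ E] :
    MvPolynomial σ ℂ →ₐ[ℂ] Module.End E ((σ → ℤ) → E) :=
  AddMonoidAlgebra.lift ℂ _ (σ →₀ ℕ) (monHom σ E)

theorem actF_monomial (α : σ →₀ ℕ) (c : ℂ) (F : (σ → ℤ) → E) (w : σ → ℤ) :
    actF σ E (monomial α c) F w = c • F (fun i => w i + (α i : ℤ)) := by
  have : actF σ E (monomial α c) = c • monHom σ E (Multiplicative.ofAdd α) :=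
    AddMonoidAlgebra.lift_single _ _ _
  rw [this]
  rfl

theorem actF_X (j : σ) (F : (σ → ℤ) → E) (w : σ → ℤ) :
    actF σ E (X j) F w = F (fun i => w i + ((Finsupp.single j 1 : σ →₀ ℕ) i : ℤ)) := by
  have := actF_monomial (Finsupp.single j 1) 1 F w
  rw [one_smul] at this
  exact this

theorem actF_apply (p : MvPolynomial σ ℂ) (F : (σ → ℤ) → E) (w : σ → ℤ) :
    actF σ E p F w = ∑ α ∈ p.support, coeff α p • F (fun i => w i + (α i : ℤ)) := by
  conv_lhs => rw [p.as_sum]
  rw [map_sum, LinearMap.sum_apply, Finset.sum_apply]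
  exact Finset.sum_congr rfl fun α _ => actF_monomial α _ F w

open scoped Classical in
/-- the derivations: `n j` is the exponent of the variable `j` -/
noncomputable def dF (n : σ → E) (j : σ) : Module.End E ((σ → ℤ) → E) where
  toFun F w := (n j - (w j : E) + 1) * F (fun i => w i - ((Finsupp.single j 1 : σ →₀ ℕ) i : ℤ))
  map_add' F G := by
    funext w
    exact mul_add _ _ _
  map_smul' c F := by
    funext w
    exact mul_left_comm _ _ _

theorem dF_apply (n : σ → E) (j : σ) (F : (σ → ℤ) → E) (w : σ → ℤ) :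
    dF n j F w = (n j - (w j : E) + 1) *
      F (fun i => w i - ((Finsupp.single j 1 : σ →₀ ℕ) i : ℤ)) := rfl

theorem leibF (n : σ → E) (i j : σ) (F : (σ → ℤ) → E) :
    dF n i (actF σ E (X j) F) = actF σ E (pderiv i (X j)) F + actF σ E (X j) (dF n i F) := by
  classical
  funext w
  rw [Pi.add_apply, dF_apply, actF_X, actF_X, dF_apply]
  by_cases hij : i = j
  · subst hij
    rw [pderiv_X_self, map_one, Module.End.one_apply]
    simp only [Finsupp.single_eq_same]
    have h1 : (fun l => w l - ((Finsupp.single i 1 : σ →₀ ℕ) l : ℤ)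
        + ((Finsupp.single i 1 : σ →₀ ℕ) l : ℤ)) = w := by
      funext l; ring
    have h2 : (fun l => w l + ((Finsupp.single i 1 : σ →₀ ℕ) l : ℤ)
        - ((Finsupp.single i 1 : σ →₀ ℕ) l : ℤ)) = w := by
      funext l; ring
    rw [h1, h2]
    push_cast
    ring
  · rw [pderiv_X_of_ne (Ne.symm hij), map_zero, LinearMap.zero_apply, Pi.zero_apply, zero_add]
    have h1 : ((Finsupp.single j 1 : σ →₀ ℕ) i : ℤ) = 0 := by
      rw [Finsupp.single_eq_of_ne hij]; rfl
    rw [h1, add_zero]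
    congr 2
    funext l
    ring

variable (f : MvPolynomial σ ℂ) (θ : (σ →₀ ℕ) → E) (φ : (σ →₀ ℕ) → ℤ → E)

/-- the index set of the sums -/
def idx (l : ℤ) (w : σ → ℤ) : Set (f.support → ℤ) :=
  {t | ∑ α, t α = l ∧ ∀ j, ∑ α, t α * ((α : σ →₀ ℕ) j : ℤ) = w j}

/-- the coefficients -/
noncomputable def cf (t : f.support → ℤ) : E :=
  ∏ α : f.support, (φ α (t α) * algebraMap ℂ E ((coeff (α : σ →₀ ℕ) f) ^ (- t α)))

open scoped Classical in
/-- sums over the index set -/
noncomputable def ws (h : (f.support → ℤ) → E) (l : ℤ) (w : σ → ℤ) : E :=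
  ∑ᶠ t : f.support → ℤ, if t ∈ idx f l w then h t else 0

/-- the formal powers -/
noncomputable def psiF (l : ℤ) (w : σ → ℤ) : E := ws f (cf f φ) l w

variable {f θ φ}

theorem ws_add {h h' : (f.support → ℤ) → E} {l : ℤ} {w : σ → ℤ}
    (hh : {t | t ∈ idx f l w ∧ h t ≠ 0}.Finite) (hh' : {t | t ∈ idx f l w ∧ h' t ≠ 0}.Finite) :
    ws f (fun t => h t + h' t) l w = ws f h l w + ws f h' l w := by
  classical
  unfold ws
  rw [← finsum_add_distrib]
  · refine finsum_congr fun t => ?_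
    split_ifs
    · rfl
    · rw [add_zero]
  · refine hh.subset fun t ht => ?_
    rw [Function.mem_support] at ht
    by_cases h1 : t ∈ idx f l w
    · rw [if_pos h1] at ht; exact ⟨h1, ht⟩
    · rw [if_neg h1] at ht; exact absurd rfl ht
  · refine hh'.subset fun t ht => ?_
    rw [Function.mem_support] at ht
    by_cases h1 : t ∈ idx f l w
    · rw [if_pos h1] at ht; exact ⟨h1, ht⟩
    · rw [if_neg h1] at ht; exact absurd rfl ht

theorem ws_zero {l : ℤ} {w : σ → ℤ} : ws f (fun _ => (0 : E)) l w = 0 := by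
  unfold ws
  simp

theorem ws_sum {ι : Type} (s : Finset ι) {h : ι → (f.support → ℤ) → E} {l : ℤ} {w : σ → ℤ}
    (hh : ∀ i ∈ s, {t | t ∈ idx f l w ∧ h i t ≠ 0}.Finite) :
    ws f (fun t => ∑ i ∈ s, h i t) l w = ∑ i ∈ s, ws f (h i) l w := by
  classical
  induction s using Finset.induction_on with
  | empty => simp [ws_zero]
  | insert a s ha ih =>
    have h1 : (fun t => ∑ i ∈ insert a s, h i t) = fun t => h a t + ∑ i ∈ s, h i t := by
      funext t
      rw [Finset.sum_insert ha]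
    rw [h1, ws_add (hh a (Finset.mem_insert_self _ _)), Finset.sum_insert ha,
      ih fun i hi => hh i (Finset.mem_insert_of_mem hi)]
    have h2 : (⋃ i ∈ s, {t | t ∈ idx f l w ∧ h i t ≠ 0}).Finite :=
      Set.Finite.biUnion s.finite_toSet fun i hi => hh i (Finset.mem_insert_of_mem hi)
    refine h2.subset fun t ht => ?_
    by_contra h3
    simp only [Set.mem_iUnion, not_exists] at h3
    exact ht.2 (Finset.sum_eq_zero fun i hi => by
      by_contra h4
      exact h3 i hi ⟨ht.1, h4⟩)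

theorem ws_mul {h : (f.support → ℤ) → E} (c : E) {l : ℤ} {w : σ → ℤ}
    (hh : {t | t ∈ idx f l w ∧ h t ≠ 0}.Finite) :
    ws f (fun t => c * h t) l w = c * ws f h l w := by
  classical
  unfold ws
  rw [mul_finsum']
  · refine finsum_congr fun t => ?_
    split_ifs
    · rfl
    · rw [mul_zero]
  · refine hh.subset fun t ht => ?_
    rw [Function.mem_support] at ht
    by_cases h1 : t ∈ idx f l w
    · rw [if_pos h1] at ht; exact ⟨h1, ht⟩
    · rw [if_neg h1] at ht; exact absurd rfl ht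

theorem ws_congr {h h' : (f.support → ℤ) → E} {l : ℤ} {w : σ → ℤ}
    (hh : ∀ t ∈ idx f l w, h t = h' t) : ws f h l w = ws f h' l w := by
  classical
  unfold ws
  refine finsum_congr fun t => ?_
  split_ifs with h1
  · exact hh t h1
  · rfl

open scoped Classical in
/-- the unit vector -/
noncomputable def ev1 (β : f.support) : f.support → ℤ := Pi.single β 1

theorem mem_idx_add {l : ℤ} {w : σ → ℤ} (β : f.support) (t : f.support → ℤ) :
    t + ev1 β ∈ idx f (l + 1) (fun i => w i + ((β : σ →₀ ℕ) i : ℤ)) ↔ t ∈ idx f l w := by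
  classical
  unfold idx ev1
  simp only [Set.mem_ofPred_eq, Pi.add_apply, add_mul, Finset.sum_add_distrib]
  have h1 : ∑ α : f.support, (Pi.single β (1 : ℤ) : f.support → ℤ) α = 1 := by
    rw [Finset.sum_pi_single']; simp
  have h2 : ∀ j, ∑ α : f.support, (Pi.single β (1 : ℤ) : f.support → ℤ) α
      * ((α : σ →₀ ℕ) j : ℤ) = ((β : σ →₀ ℕ) j : ℤ) := by
    intro j
    rw [Finset.sum_eq_single β]
    · rw [Pi.single_eq_same, one_mul]
    · intro α _ hα
      rw [Pi.single_eq_of_ne hα, zero_mul]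
    · intro h; exact absurd (Finset.mem_univ _) h
  rw [h1]
  simp_rw [h2]
  constructor
  · rintro ⟨h3, h4⟩
    exact ⟨by omega, fun j => by have := h4 j; omega⟩
  · rintro ⟨h3, h4⟩
    exact ⟨by omega, fun j => by rw [h4 j]⟩

/-- the factors -/
noncomputable def cfa (f : MvPolynomial σ ℂ) (φ : (σ →₀ ℕ) → ℤ → E) (α : f.support) (n : ℤ) : E :=
  φ α n * algebraMap ℂ E ((coeff (α : σ →₀ ℕ) f) ^ (-n))

theorem cfa_add (hφ : ∀ α ∈ f.support, ∀ t : ℤ, φ α (t + 1) = (θ α - (t : E)) * φ α t)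
    (β : f.support) (n : ℤ) :
    algebraMap ℂ E (coeff (β : σ →₀ ℕ) f) * cfa f φ β (n + 1) = (θ β - (n : E)) * cfa f φ β n := by
  unfold cfa
  rw [hφ β β.2 n, neg_add, zpow_add₀ (mem_support_iff.1 β.2), zpow_neg_one, map_mul]
  have h2 : algebraMap ℂ E (coeff (β : σ →₀ ℕ) f) * algebraMap ℂ E (coeff (β : σ →₀ ℕ) f)⁻¹
      = 1 := by
    rw [← map_mul, mul_inv_cancel₀ (mem_support_iff.1 β.2), map_one]
  linear_combination (θ β - (n : E)) * φ β n *
    algebraMap ℂ E ((coeff (β : σ →₀ ℕ) f) ^ (- n)) * h2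

theorem cf_add (hφ : ∀ α ∈ f.support, ∀ t : ℤ, φ α (t + 1) = (θ α - (t : E)) * φ α t)
    (β : f.support) (t : f.support → ℤ) :
    algebraMap ℂ E (coeff (β : σ →₀ ℕ) f) * cf f φ (t + ev1 β)
      = (θ β - (t β : E)) * cf f φ t := by
  classical
  have e1 : cf f φ (t + ev1 β) = cfa f φ β (t β + 1) *
      ∏ α ∈ (Finset.univ.erase β : Finset f.support), cfa f φ α (t α) := by
    have : cf f φ (t + ev1 β) = ∏ α : f.support, cfa f φ α ((t + ev1 β) α) := rfl
    rw [this, ← Finset.mul_prod_erase Finset.univ _ (Finset.mem_univ β)]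
    congr 1
    · unfold ev1
      rw [Pi.add_apply, Pi.single_eq_same]
    · refine Finset.prod_congr rfl fun α hα => ?_
      unfold ev1
      rw [Pi.add_apply, Pi.single_eq_of_ne (Finset.ne_of_mem_erase hα), add_zero]
  have e2 : cf f φ t = cfa f φ β (t β) *
      ∏ α ∈ (Finset.univ.erase β : Finset f.support), cfa f φ α (t α) := by
    have : cf f φ t = ∏ α : f.support, cfa f φ α (t α) := rfl
    rw [this, ← Finset.mul_prod_erase Finset.univ _ (Finset.mem_univ β)]
  rw [e1, e2, ← mul_assoc, cfa_add hφ, mul_assoc]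

/-- the basic relation -/
theorem psi_shift (hφ : ∀ α ∈ f.support, ∀ t : ℤ, φ α (t + 1) = (θ α - (t : E)) * φ α t)
    (β : f.support) (l : ℤ) (w : σ → ℤ)
    (hfin : {t | t ∈ idx f (l + 1) (fun i => w i + ((β : σ →₀ ℕ) i : ℤ)) ∧ cf f φ t ≠ 0}.Finite) :
    algebraMap ℂ E (coeff (β : σ →₀ ℕ) f)
        * psiF f φ (l + 1) (fun i => w i + ((β : σ →₀ ℕ) i : ℤ))
      = ws f (fun t => (θ β - (t β : E)) * cf f φ t) l w := by
  classical
  unfold psiF
  rw [← ws_mul _ hfin]
  unfold ws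
  rw [← finsum_comp_equiv (Equiv.addRight (ev1 β))]
  refine finsum_congr fun t => ?_
  show (if t + ev1 β ∈ _ then _ * cf f φ (t + ev1 β) else 0) = _
  simp only [mem_idx_add β t, cf_add hφ β t]

theorem fin_mul {h : (f.support → ℤ) → E} {l : ℤ} {w : σ → ℤ} (g : (f.support → ℤ) → E)
    (hh : {t | t ∈ idx f l w ∧ h t ≠ 0}.Finite) : {t | t ∈ idx f l w ∧ g t * h t ≠ 0}.Finite :=
  hh.subset fun t ht => ⟨ht.1, fun h0 => ht.2 (by rw [h0, mul_zero])⟩

theorem psi_mul (hφ : ∀ α ∈ f.support, ∀ t : ℤ, φ α (t + 1) = (θ α - (t : E)) * φ α t)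
    (hfin : ∀ l w, {t | t ∈ idx f l w ∧ cf f φ t ≠ 0}.Finite) (l : ℤ) (w : σ → ℤ) :
    actF σ E f (psiF f φ (l + 1)) w = (∑ α ∈ f.support, θ α - (l : E)) * psiF f φ l w := by
  classical
  rw [actF_apply, ← Finset.sum_attach, ← Finset.univ_eq_attach]
  have h1 : ∀ β : f.support, coeff (β : σ →₀ ℕ) f • psiF f φ (l + 1)
      (fun i => w i + ((β : σ →₀ ℕ) i : ℤ)) = ws f (fun t => (θ β - (t β : E)) * cf f φ t) l w := by
    intro β
    rw [Algebra.smul_def, psi_shift hφ β l w (hfin _ _)]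
  rw [Finset.sum_congr rfl fun β _ => h1 β, ← ws_sum Finset.univ
    (h := fun (β : f.support) t => (θ β - (t β : E)) * cf f φ t)
    (fun β _ => fin_mul _ (hfin l w))]
  unfold psiF
  rw [← ws_mul _ (hfin l w)]
  refine ws_congr fun t ht => ?_
  rw [← Finset.sum_mul, Finset.sum_sub_distrib]
  congr 2
  · rw [Finset.univ_eq_attach, Finset.sum_attach f.support θ]
  · rw [← ht.1]
    push_cast
    rfl

theorem psi_d (hφ : ∀ α ∈ f.support, ∀ t : ℤ, φ α (t + 1) = (θ α - (t : E)) * φ α t)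
    (hfin : ∀ l w, {t | t ∈ idx f l w ∧ cf f φ t ≠ 0}.Finite) {n : σ → E} {j : σ}
    (hn : n j = ∑ α ∈ f.support, θ α * ((α j : ℕ) : E)) (l : ℤ) (w : σ → ℤ) :
    dF n j (psiF f φ l) w = actF σ E (pderiv j f) (psiF f φ (l + 1)) w := by
  classical
  have h0 : actF σ E (pderiv j f) (psiF f φ (l + 1)) w
      = ∑ β : f.support, (((β : σ →₀ ℕ) j : ℕ) : E) * (algebraMap ℂ E (coeff (β : σ →₀ ℕ) f)
        * psiF f φ (l + 1) (fun i => w i - ((Finsupp.single j 1 : σ →₀ ℕ) i : ℤ)
          + ((β : σ →₀ ℕ) i : ℤ))) := by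
    generalize psiF f φ (l + 1) = F
    have e : actF σ E (pderiv j f) F w = ∑ α ∈ f.support,
        actF σ E (pderiv j (monomial α (coeff α f))) F w := by
      conv_lhs => rw [f.as_sum]
      rw [map_sum, map_sum, LinearMap.sum_apply, Finset.sum_apply]
    rw [e, ← Finset.sum_attach, ← Finset.univ_eq_attach]
    refine Finset.sum_congr rfl fun β _ => ?_
    rw [pderiv_monomial, actF_monomial, Algebra.smul_def, map_mul, map_natCast]
    rcases Nat.eq_zero_or_pos ((β : σ →₀ ℕ) j) with h | h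
    · rw [h]
      simp
    · have h2 : (fun i => w i + (((β : σ →₀ ℕ) - Finsupp.single j 1 : σ →₀ ℕ) i : ℤ))
          = fun i => w i - ((Finsupp.single j 1 : σ →₀ ℕ) i : ℤ) + ((β : σ →₀ ℕ) i : ℤ) := by
        funext i
        rw [Finsupp.tsub_apply]
        by_cases hi : i = j
        · subst hi
          rw [Finsupp.single_eq_same]
          omega
        · rw [Finsupp.single_eq_of_ne hi]
          simp
      rw [h2]
      ring
  have h1 : ∀ β : f.support, (((β : σ →₀ ℕ) j : ℕ) : E) * (algebraMap ℂ E (coeff (β : σ →₀ ℕ) f)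
        * psiF f φ (l + 1) (fun i => w i - ((Finsupp.single j 1 : σ →₀ ℕ) i : ℤ)
          + ((β : σ →₀ ℕ) i : ℤ)))
      = ws f (fun t => (((β : σ →₀ ℕ) j : ℕ) : E) * ((θ β - (t β : E)) * cf f φ t)) l
        (fun i => w i - ((Finsupp.single j 1 : σ →₀ ℕ) i : ℤ)) := by
    intro β
    rw [psi_shift hφ β l _ (hfin _ _), ws_mul _ (fin_mul _ (hfin _ _))]
  rw [h0, Finset.sum_congr rfl fun β _ => h1 β, ← ws_sum Finset.univ
    (h := fun (β : f.support) t => (((β : σ →₀ ℕ) j : ℕ) : E) * ((θ β - (t β : E)) * cf f φ t))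
    (fun β _ => by
      have := fin_mul (fun t => (((β : σ →₀ ℕ) j : ℕ) : E)) (fin_mul (fun t => θ β - (t β : E))
        (hfin l (fun i => w i - ((Finsupp.single j 1 : σ →₀ ℕ) i : ℤ))))
      exact this), dF_apply]
  unfold psiF
  rw [← ws_mul _ (hfin _ _)]
  refine ws_congr fun t ht => ?_
  have h3 : ∑ β : f.support, (((β : σ →₀ ℕ) j : ℕ) : E) * ((θ β - (t β : E)) * cf f φ t)
      = (∑ β : f.support, θ β * (((β : σ →₀ ℕ) j : ℕ) : E)
        - ∑ β : f.support, (t β : E) * (((β : σ →₀ ℕ) j : ℕ) : E)) * cf f φ t := by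
    rw [← Finset.sum_sub_distrib, Finset.sum_mul]
    exact Finset.sum_congr rfl fun β _ => by ring
  rw [h3]
  congr 1
  have h4 : ∑ α : f.support, t α * ((α : σ →₀ ℕ) j : ℤ)
      = w j - ((Finsupp.single j 1 : σ →₀ ℕ) j : ℤ) := ht.2 j
  rw [Finsupp.single_eq_same] at h4
  have h5 : ∑ β : f.support, (t β : E) * (((β : σ →₀ ℕ) j : ℕ) : E) = (w j : E) - 1 := by
    have := congrArg (fun z : ℤ => (z : E)) h4
    push_cast at this
    exact this
  rw [h5, hn]
  rw [Finset.univ_eq_attach, Finset.sum_attach f.support (fun α => θ α * ((α j : ℕ) : E))]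
  ring

/-- **the chain of formal powers**: consequences for the Bernstein-Sato polynomial -/
theorem chain_root [Finite σ] (hE : ERootStmt)
    (hφ : ∀ α ∈ f.support, ∀ t : ℤ, φ α (t + 1) = (θ α - (t : E)) * φ α t)
    (hfin : ∀ l w, {t | t ∈ idx f l w ∧ cf f φ t ≠ 0}.Finite)
    (hs : ∀ l : ℕ, IsUnit (∑ α ∈ f.support, θ α - (l : E))) {n : σ → E}
    (hn : ∀ j, n j = ∑ α ∈ f.support, θ α * ((α j : ℕ) : E))
    (N : Submodule E ((σ → ℤ) → E)) (hact : ∀ j, ∀ F ∈ N, actF σ E (X j) F ∈ N)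
    (hd : ∀ j, ∀ F ∈ N, dF n j F ∈ N) (h0 : psiF f φ (-1) ∈ N) (b : Polynomial ℂ)
    (hb : LocalBS f b) :
    (Polynomial.aeval (∑ α ∈ f.support, θ α) b) • psiF f φ 0 ∈ N := by
  classical
  set s : E := ∑ α ∈ f.support, θ α with hsdef
  -- the normalizing factors
  let c : ℕ → E := fun l => ∏ i ∈ Finset.range l, ((hs i).unit⁻¹ : Eˣ)
  have hc : ∀ l : ℕ, c (l + 1) * (s - (l : E)) = c l := by
    intro l
    show (∏ i ∈ Finset.range (l + 1), (((hs i).unit⁻¹ : Eˣ) : E)) * _ = _
    rw [Finset.prod_range_succ, mul_assoc, IsUnit.val_inv_mul, mul_one]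
  let psi : ℕ → ((σ → ℤ) → E) := fun l => c l • psiF f φ (l : ℤ)
  have hmul : ∀ l : ℕ, actF σ E f (psi (l + 1)) = psi l := by
    intro l
    show actF σ E f (c (l + 1) • psiF f φ ((l + 1 : ℕ) : ℤ)) = c l • psiF f φ (l : ℤ)
    rw [map_smul]
    funext w
    rw [Pi.smul_apply, Pi.smul_apply, smul_eq_mul, smul_eq_mul]
    have := psi_mul hφ hfin (l : ℤ) w
    push_cast at this ⊢
    rw [this, ← mul_assoc, hc]
  have hder : ∀ j, ∀ l : ℕ, dF n j (psi l)
      = (s - (l : E)) • actF σ E (pderiv j f) (psi (l + 1)) := by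
    intro j l
    show dF n j (c l • psiF f φ (l : ℤ))
      = (s - (l : E)) • actF σ E (pderiv j f) (c (l + 1) • psiF f φ ((l + 1 : ℕ) : ℤ))
    rw [map_smul, map_smul]
    funext w
    rw [Pi.smul_apply, Pi.smul_apply, Pi.smul_apply, smul_eq_mul, smul_eq_mul, smul_eq_mul]
    have := psi_d hφ hfin (hn j) (l : ℤ) w
    push_cast at this ⊢
    rw [this, ← mul_assoc, mul_comm (s - (l : E)), hc]
  have h1 : actF σ E f (psi 0) ∈ N := by
    have h2 : actF σ E f (psi 0) = (s + 1) • psiF f φ (-1) := by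
      funext w
      have h3 : psi 0 = psiF f φ 0 := by
        show c 0 • psiF f φ ((0 : ℕ) : ℤ) = _
        have : c 0 = 1 := Finset.prod_range_zero _
        rw [this, one_smul]
        rfl
      have := psi_mul hφ hfin (-1 : ℤ) w
      rw [h3, Pi.smul_apply, smul_eq_mul]
      rw [show (-1 : ℤ) + 1 = 0 by ring] at this
      rw [this]
      push_cast
      ring
    rw [h2]
    exact N.smul_mem _ h0
  have h4 := hE σ E ((σ → ℤ) → E) f s (actF σ E) (dF n) (fun i j F => leibF n i j F) psi hmul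
    hder N hact hd h1 b hb
  have h3 : psi 0 = psiF f φ 0 := by
    show c 0 • psiF f φ ((0 : ℕ) : ℤ) = _
    have : c 0 = 1 := Finset.prod_range_zero _
    rw [this, one_smul]
    rfl
  rwa [h3] at h4

end chain

end Pool.Agent.Helper30_Simp
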