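import Pool.Agent.Helper30_Simp.Geo

/-!
# Module statements for the theorem on simplicial Newton-nondegenerate polynomials
-/

set_option autoImplicit false
set_option linter.unusedVariables false
set_option linter.unusedSectionVars false

namespace Pool.Agent.Helper30_Simp

open PowerSeries Finset Pool.Agent.Helper6_Mono

/-! ## The zeta function: functors -/

/-- MODULE FTS: the functors are of finite type -/
def FTStmt : Prop :=
  ∀ (k : Type) [Field k] (σ : Type) [Fintype σ] (W : Type) [AddCommGroup W],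
    (∀ (g : MvPolynomial σ k) (V : TS W g), FT (TT0 V).F) ∧
    (∀ (g : MvPolynomial σ k) (V : TS W g) (h : V.μ = 0), FT (TT1 V h).F) ∧
    (∀ (f : MvPolynomial σ k) (u : σ → ℕ) (m : ℕ) (ω : W) (hω : m • ω = 0), FT (FS f u m ω hω).F)

open scoped Classical in
/-- MODULE STRATA: the jets are stratified by their orders -/
def StrataStmt : Prop :=
  ∀ (k : Type) [Field k] (σ : Type) [Fintype σ] (R : Type 1) [CommRing R] (L : Rˣ)
    (χ : SInv k (fun _ : σ => (0 : QZ)) L) (f : MvPolynomial σ k) (m : ℕ), m ≠ 0 →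
    ∀ (ω : QZ) (hω : m • ω = 0),
      χ.χ ((FibK k σ ω m hω).app (Jet f Set.univ m ω))
        = ∑ u : σ → Fin (m + 2), χ.χ (FS f (fun i => (u i : ℕ)) m ω hω)

/-- MODULE P1: empty strata -/
def P1Stmt : Prop :=
  ∀ (k : Type) [Field k] (σ : Type) [Fintype σ] (R : Type 1) [CommRing R] (L : Rˣ)
    (χ : SInv k (fun _ : σ => (0 : QZ)) L) (f : MvPolynomial σ k) (u : σ → ℕ) (m : ℕ)
    (ω : QZ) (hω : m • ω = 0), (∀ α ∈ f.support, m < dot u α) → χ.χ (FS f u m ω hω) = 0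

/-- MODULE P2: strata on which the value of `f` has order `m` by weight reasons -/
def P2Stmt : Prop :=
  ∀ (k : Type) [Field k] (σ : Type) [Fintype σ] (R : Type 1) [CommRing R] (L : Rˣ)
    (χ : SInv k (fun _ : σ => (0 : QZ)) L) (f : MvPolynomial σ k) (I : Finset (σ →₀ ℕ))
    (J : Finset σ) (u : σ → ℕ) (m : ℕ) (h : CellS f.support I J u m)
    (ω : QZ) (hω : m • ω = 0),
      Li L ^ (m * Fintype.card σ) * χ.χ (FS f u m ω hω)
        = Li L ^ (∑ i, min (u i) m) * χ.χ (TT1 (TSu h m ω) hω)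

/-- the indices of the free coefficients, if the coefficients of the series with index `j` are
used to solve the equations -/
def DRj {σ : Type} (u : σ → ℕ) (m N : ℕ) (j : σ) : Set (σ × ℕ) :=
  {p | u p.1 < p.2 ∧ p.2 ≤ m ∧ (p.1 = j → m + u j < p.2 + N)}

/-- MODULE HEN: Hensel's lemma -/
def HenStmt : Prop :=
  ∀ (k : Type) [Field k] (σ : Type) [Fintype σ] (f : MvPolynomial σ k) (I : Finset (σ →₀ ℕ))
    (J : Finset σ) (u : σ → ℕ) (N m : ℕ) (h : CellS f.support I J u N) (hN : N < m)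
    (S : Type) [CommRing S] [Algebra k S] (j : σ) (x : σ → S) (hx : ∀ i, m < u i → x i = 0)
    (hg : MvPolynomial.aeval x (part f I) = 0)
    (hv : IsUnit (MvPolynomial.aeval x (MvPolynomial.pderiv j (part f I)))) (δ : σ → S⟦X⟧),
    ∃! γ : σ → S⟦X⟧, (∀ i c, (i, c) ∉ DU u m → coeff c (γ i) = 0) ∧
      (∀ i, u i ≤ m → coeff (u i) (γ i) = x i) ∧
      (∀ c ≤ m, coeff c (MvPolynomial.aeval γ f) = if c = m then 1 else 0) ∧
      ∀ p ∈ DRj u m N j, coeff p.2 (γ p.1) = coeff p.2 (δ p.1)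

/-- MODULE P3: strata on which the leading term of the value of `f` vanishes -/
def P3Stmt : Prop :=
  ∀ (k : Type) [Field k] (σ : Type) [Fintype σ] (R : Type 1) [CommRing R] (L : Rˣ)
    (χ : SInv k (fun _ : σ => (0 : QZ)) L) (f : MvPolynomial σ k) (I : Finset (σ →₀ ℕ))
    (J : Finset σ) (u : σ → ℕ) (N m : ℕ) (h : CellS f.support I J u N) (hN : N < m)
    (hT : TorusSmooth (part f I)) (ω : QZ) (hω : m • ω = 0),
      Li L ^ (m * Fintype.card σ) * χ.χ (FS f u m ω hω)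
        = Li L ^ (∑ i, min (u i) m + (m - N)) * χ.χ (TT0 (TSu h m ω))

/-- MODULE NDEG: initial forms are smooth in the torus -/
def NdegStmt : Prop :=
  ∀ (k : Type) [Field k] [CharZero k] (σ : Type) [Fintype σ] (f : MvPolynomial σ k)
    (I : Finset (σ →₀ ℕ)) (J : Finset σ) (u : σ → ℕ) (N : ℕ), Simplicial f.support → Nondeg f →
      CellS f.support I J u N → TorusSmooth (part f I)

/-- MODULE WEIGHTS: change of weights along an integral grading -/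
def WeightStmt : Prop :=
  ∀ (k : Type) [Field k] (σ : Type) [Fintype σ] (R : Type 1) [CommRing R] (L : Rˣ)
    (χ : SInv k (fun _ : σ => (0 : QZ)) L) (g : MvPolynomial σ k) (V V' : TS QZ g)
    (hU : V'.U = V.U) (hJ : V'.J = V.J) (hg : ∀ α ∈ g.support, ∀ i, α i ≠ 0 → i ∈ V.U)
    (δ : σ → ℤ) (hδJ : ∀ i ∈ V.J, δ i = 0) (q : QZ) (hq : ∀ i, V'.ν i = V.ν i + δ i • q),
    (∀ c : ℤ, (∀ α ∈ g.support, ∑ i, δ i * (α i : ℤ) = c) → χ.χ (TT0 V) = χ.χ (TT0 V')) ∧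
    ((∀ α ∈ g.support, ∑ i, δ i * (α i : ℤ) = 0) → ∀ (h : V.μ = 0) (h' : V'.μ = 0),
      χ.χ (TT1 V h) = χ.χ (TT1 V' h'))

/-- MODULE SPLIT: a coordinate which does not occur in `g` -/
def SplitStmt : Prop :=
  ∀ (k : Type) [Field k] (σ : Type) [Fintype σ] (R : Type 1) [CommRing R] (L : Rˣ)
    (χ : SInv k (fun _ : σ => (0 : QZ)) L) (g : MvPolynomial σ k) (V V' : TS QZ g) (i : σ)
    (hi : i ∈ V.U) (hi' : i ∉ V.J) (hg : ∀ α ∈ g.support, α i = 0)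
    (hν : ∀ l, V'.ν l = V.ν l) (hU : ∀ l, l ∈ V'.U ↔ l ∈ V.U ∧ l ≠ i) (hJ : V'.J = V.J),
    χ.χ (TT0 V) = ((L : R) - 1) * χ.χ (TT0 V') ∧
    ∀ (h : V.μ = 0) (h' : V'.μ = 0), χ.χ (TT1 V h) = ((L : R) - 1) * χ.χ (TT1 V' h')

/-! ## The reference tori -/

/-- the variables not in `J` which do not occur in the monomials `I` -/
noncomputable def freeV {σ : Type} [Fintype σ] (I : Finset (σ →₀ ℕ)) (J : Finset σ) :
    Finset σ := by
  classical
  exact univ.filter fun i => i ∉ J ∧ ∀ α ∈ I, α i = 0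

section ref

variable {k : Type} [Field k] {σ : Type} [Fintype σ]

/-- reference weights for the points with `g = 0` -/
@[reducible] noncomputable def V0 (f : MvPolynomial σ k) (I : Finset (σ →₀ ℕ)) (J : Finset σ) :
    TS QZ (part f I) where
  ν _ := 0
  μ := 0
  hg α hα := by rw [Finsupp.weight_apply]; simp
  U := by classical exact univ \ freeV I J
  J := J
  hJ i hi := rfl

/-- reference weights for the points with `g = 1` -/
@[reducible] noncomputable def V1 {f : MvPolynomial σ k} {I : Finset (σ →₀ ℕ)} {J : Finset σ}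
    {u : σ → ℕ} {N : ℕ} (h : CellS f.support I J u N) (hN : N ≠ 0) : TS QZ (part f I) where
  ν i := (((u i : ℚ) / N : ℚ) : QZ)
  μ := 0
  hg α hα := by
    have h1 := h.eq α (mem_of_mem_part_support hα)
    rw [Finsupp.weight_apply, Finsupp.sum_fintype _ _ (fun i => by rw [zero_smul])]
    have h2 : ∀ i, α i • (((u i : ℚ) / N : ℚ) : QZ) = (((u i * α i : ℕ) : ℚ) / N : ℚ) := by
      intro i
      rw [← AddCircle.coe_nsmul, nsmul_eq_mul]
      congr 1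
      push_cast
      ring
    simp_rw [h2]
    have h3 : ∑ i, ((((u i * α i : ℕ) : ℚ) / N : ℚ) : QZ)
        = ((∑ i, ((u i * α i : ℕ) : ℚ) / N : ℚ) : QZ) :=
      (map_sum (QuotientAddGroup.mk' (AddSubgroup.zmultiples (1 : ℚ))) _ _).symm
    rw [h3, ← Finset.sum_div]
    have h4 : (∑ i, ((u i * α i : ℕ) : ℚ)) = N := by
      rw [← h1, dot]
      push_cast
      rfl
    rw [h4, div_self (by exact_mod_cast hN)]
    exact AddCircle.coe_period 1
  U := by classical exact univ \ freeV I J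
  J := J
  hJ i hi := by
    rw [(h.zero i).2 hi]
    simp

end ref

/-- MODULE YTT: the tori of a cell -/
def YttStmt : Prop :=
  ∀ (k : Type) [Field k] (σ : Type) [Fintype σ] (R : Type 1) [CommRing R] (L : Rˣ)
    (χ : SInv k (fun _ : σ => (0 : QZ)) L) (f : MvPolynomial σ k) (I : Finset (σ →₀ ℕ))
    (J : Finset σ) (u : σ → ℕ) (N m : ℕ) (h : CellS f.support I J u N) (hN : N ≤ m),
    (∀ ω : QZ, χ.χ (TT0 (TSu h m ω))
      = ((L : R) - 1) ^ ((freeV I J).filter fun i => u i ≤ m).card * χ.χ (TT0 (V0 f I J))) ∧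
    (∀ (hm : N = m) (hm0 : m ≠ 0) (ω : QZ) (hω : ω = (((1 : ℚ) / m : ℚ) : QZ))
      (hμ : (TSu h m ω).μ = 0) (u₀ : σ → ℕ) (N₀ : ℕ) (h₀ : CellS f.support I J u₀ N₀)
      (hN₀ : N₀ ≠ 0), χ.χ (TT1 (TSu h m ω) hμ)
      = ((L : R) - 1) ^ ((freeV I J).filter fun i => u i ≤ m).card * χ.χ (TT1 (V1 h₀ hN₀) rfl))

/-! ## The zeta function: lattice point sums -/

/-- the weight of one coordinate -/
noncomputable def cw {R : Type*} [CommRing R] (L : Rˣ) {σ : Type} [Fintype σ]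
    (I : Finset (σ →₀ ℕ)) (J : Finset σ) (m : ℕ) (i : σ) (v : ℕ) : R := by
  classical
  exact if i ∈ freeV I J then (if v ≤ m then ((L : R) - 1) * Li L ^ v else Li L ^ m)
    else Li L ^ v

open scoped Classical in
/-- the sum over the orders `u`, truncated at `m + 1`, in the cell `(I, J)` with value `l` -/
noncomputable def coneSum {R : Type*} [CommRing R] (L : Rˣ) {σ : Type} [Fintype σ]
    (M I : Finset (σ →₀ ℕ)) (J : Finset σ) (l m : ℕ) : R :=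
  ∑ u : σ → Fin (m + 2), if CellS M I J (fun i => (u i : ℕ)) l then
    ∏ i, cw L I J m i (u i) else 0

/-- the slopes: `|κ| / N(κ)` for the facet vectors `κ` -/
def slopes {σ : Type} [Fintype σ] (M : Finset (σ →₀ ℕ)) : Set ℚ :=
  {x | ∃ κ : σ → ℕ, IsFacet M κ ∧ ∃ α ∈ face M κ, x = ((∑ i, κ i : ℕ) : ℚ) / (dot κ α : ℕ)}

/-- MODULE TRUNC: the truncation does not matter -/
def TruncStmt : Prop :=
  ∀ (σ : Type) [Fintype σ] (R : Type 1) [CommRing R] (L : Rˣ) (M I : Finset (σ →₀ ℕ))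
    (J : Finset σ) (l m : ℕ), l ≤ m → coneSum L M I J l m = coneSum L M I J l l

/-- MODULE CONE: the lattice point sums are rational with denominators from facets -/
def ConeStmt : Prop :=
  ∀ (σ : Type) [Fintype σ] (R : Type 1) [CommRing R] (L : Rˣ) (M I : Finset (σ →₀ ℕ))
    (J : Finset σ), RP L (steps (slopes M)) (fun l => coneSum L M I J l l)

/-- `RQ z P a`: after finitely many steps `a ↦ (a (m + v) - z ^ u a m)` with `(u, v) ∈ P` the
sequence `a` becomes eventually zero -/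
inductive RQ {R : Type*} [CommRing R] (z : R) (P : Set (ℕ × ℕ)) : (ℕ → R) → Prop
  | fin (a : ℕ → R) (N : ℕ) (h : ∀ m, N ≤ m → a m = 0) : RQ z P a
  | step (a : ℕ → R) (u v : ℕ) (huv : (u, v) ∈ P)
      (h : RQ z P (fun m => a (m + v) - z ^ u * a m)) : RQ z P a

/-- the generating function of the points `u` of `A` with `n · u = l` by `|u|` -/
noncomputable def gf {σ : Type} [Fintype σ] (n : σ → ℕ) (A : Set (σ → ℕ)) (l : ℕ) : ℤ⟦X⟧ :=
  PowerSeries.mk fun d => (Nat.card {u : σ → ℕ // u ∈ A ∧ ∑ i, n i * u i = l ∧ ∑ i, u i = d} : ℤ)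

/-- lattice points of a polyhedron: equations for `r ∈ E`, inequalities for the other `r` -/
def poly {σ ρ : Type} [Fintype σ] (a : ρ → σ → ℤ) (E : Set ρ) (b : ρ → ℤ) : Set (σ → ℕ) :=
  {u | ∀ r, (r ∈ E → ∑ i, a r i * (u i : ℤ) = b r) ∧ (r ∉ E → b r ≤ ∑ i, a r i * (u i : ℤ))}

/-- MODULE POLYR: rationality for polyhedra -/
def PolyRStmt : Prop :=
  ∀ (σ ρ : Type) [Fintype σ] [Fintype ρ] (a : ρ → σ → ℤ) (n : σ → ℕ) (P : Set (ℕ × ℕ))
    (E : Set ρ) (b : ρ → ℤ),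
    (∀ i, ∃ r, 0 ≤ b r ∧ a r i = 1 ∧ ∀ j, j ≠ i → a r j = 0) →
    (∀ E' : Set ρ, E ⊆ E' → (∃ u ∈ poly a E' 0, u ≠ 0) → ∃ κ ∈ poly a E' 0, κ ≠ 0 ∧
      (∑ i, n i * κ i = 0 ∨ (0 < ∑ i, n i * κ i ∧ (∑ i, κ i, ∑ i, n i * κ i) ∈ P))) →
    RQ (PowerSeries.X : ℤ⟦X⟧) P (gf n (poly a E b))

/-- the cone with equations `S`, `T` -/
def InCone {σ : Type} [Fintype σ] (M : Finset (σ →₀ ℕ)) (α₀ : σ →₀ ℕ) (S : Set σ)
    (T : Set (σ →₀ ℕ)) (u : σ → ℕ) : Prop :=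
  (∀ i ∈ S, u i = 0) ∧ (∀ α ∈ T, dot u α = dot u α₀) ∧ ∀ α ∈ M, dot u α₀ ≤ dot u α

/-- MODULE EXT: facet vectors in cones -/
def ExtStmt : Prop :=
  ∀ (σ : Type) [Fintype σ] (M : Finset (σ →₀ ℕ)) (α₀ : σ →₀ ℕ), α₀ ∈ M → ∀ (S : Set σ)
    (T : Set (σ →₀ ℕ)), T ⊆ (M : Set (σ →₀ ℕ)) →
    (∃ u : σ → ℕ, u ≠ 0 ∧ InCone M α₀ S T u) →
    ∃ κ : σ → ℕ, κ ≠ 0 ∧ InCone M α₀ S T κ ∧ (dot κ α₀ = 0 ∨ IsFacet M κ)

/-- MODULE CONEG: rationality of the generating function of a cell -/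
def ConeGStmt : Prop :=
  ∀ (σ : Type) [Fintype σ] (M I : Finset (σ →₀ ℕ)) (J : Finset σ) (α₀ : σ →₀ ℕ), α₀ ∈ I →
    RQ (PowerSeries.X : ℤ⟦X⟧) (steps (slopes M))
      (gf (fun i => α₀ i) {u | CellS M I J u (dot u α₀)})

/-- MODULE ZFIN: rationality of the normalized classes of the jet spaces -/
def ZfinStmt : Prop :=
  ∀ (k : Type) [Field k] [CharZero k] (σ : Type) [Fintype σ] (R : Type 1) [CommRing R] (L : Rˣ)
    (χ : SInv k (fun _ : σ => (0 : QZ)) L) (f : MvPolynomial σ k), f ≠ 0 →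
    Simplicial f.support → Nondeg f →
    ∃ a : ℕ → R, a 0 = 0 ∧ RP L (steps (slopes f.support ∪ {1})) a ∧
      ∀ (m : ℕ) (hm : m ≠ 0) (hω : m • ((((1 : ℚ) / m : ℚ)) : QZ) = 0),
        a m = Li L ^ (m * Fintype.card σ) *
          χ.χ ((FibK k σ ((((1 : ℚ) / m : ℚ)) : QZ) m hω).app
            (Jet f Set.univ m ((((1 : ℚ) / m : ℚ)) : QZ)))

/-! ## The Bernstein-Sato polynomial -/

/-- MODULE EROOT: chains over an algebra `E` -/
def ERootStmt : Prop :=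
  ∀ (σ : Type) [Finite σ] (E B : Type) [CommRing E] [Algebra ℂ E] [AddCommGroup B]
    [Module ℂ B] [Module E B] [IsScalarTower ℂ E B] (f : MvPolynomial σ ℂ) (s : E)
    (act : MvPolynomial σ ℂ →ₐ[ℂ] Module.End E B) (d : σ → Module.End E B)
    (leibX : ∀ i j b, d i (act (MvPolynomial.X j) b)
      = act (MvPolynomial.pderiv i (MvPolynomial.X j)) b + act (MvPolynomial.X j) (d i b))
    (psi : ℕ → B) (mul_psi : ∀ n, act f (psi (n + 1)) = psi n)
    (d_psi : ∀ i, ∀ n : ℕ, d i (psi n) = (s - (n : E)) • act (MvPolynomial.pderiv i f) (psi (n + 1)))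
    (N : Submodule E B) (hact : ∀ i, ∀ b ∈ N, act (MvPolynomial.X i) b ∈ N)
    (hd : ∀ i, ∀ b ∈ N, d i b ∈ N) (h0 : act f (psi 0) ∈ N) (b : Polynomial ℂ)
    (hb : LocalBS f b), (Polynomial.aeval s b) • psi 0 ∈ N

/-- the linear form with coefficients `lam i` -/
noncomputable def lf {P W : Type} [Fintype W] (lam : P → W → ℚ) (i : P) : MvPolynomial W ℂ :=
  ∑ ρ, MvPolynomial.C ((lam i ρ : ℚ) : ℂ) * MvPolynomial.X ρ

/-- some point of the polytope `c ≥ 0`, `g + ∑ c i * lam i ≥ 0` has support in `D` and satisfies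
the inequalities in `S` with equality -/
def IsFace {P W : Type} [Fintype P] (lam : P → W → ℚ) (g : W → ℚ) (D : Finset P)
    (S : Finset W) : Prop :=
  ∃ c : P → ℝ, (∀ i, 0 ≤ c i) ∧ (∀ i, i ∉ D → c i = 0) ∧
    (∀ ρ, 0 ≤ (g ρ : ℝ) + ∑ i, c i * (lam i ρ : ℝ)) ∧
    ∀ ρ ∈ S, (g ρ : ℝ) + ∑ i, c i * (lam i ρ : ℝ) = 0

open scoped Classical in
/-- the ideal of the nonfaces -/
noncomputable def nfIdeal {P W : Type} [Fintype P] [Fintype W] (lam : P → W → ℚ) (g : W → ℚ) :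
    Ideal (MvPolynomial W ℂ) :=
  Ideal.span ({x | ∃ (D : Finset P) (S : Finset W), ¬ IsFace lam g D S ∧
      x = (∏ ρ ∈ S, MvPolynomial.X ρ) * ∏ i ∈ univ \ D, lf lam i} ∪
    {x | ∃ α : W →₀ ℕ, ∑ ρ, α ρ = Fintype.card P + 1 ∧ x = MvPolynomial.monomial α 1})

/-- MODULE ALGF: the class of the vertex does not vanish -/
def AlgStmt : Prop :=
  ∀ (P W : Type) [Fintype P] [Fintype W] (lam : P → W → ℚ) (g : W → ℚ), (∀ ρ, 0 < g ρ) →
    (∀ c : P → ℝ, (∀ i, 0 ≤ c i) → (∀ ρ, 0 ≤ ∑ i, c i * (lam i ρ : ℝ)) → c = 0) →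
    ∏ i, lf lam i ∉ nfIdeal lam g

/-- shifts of functions -/
def shiftHom (W : Type) : Multiplicative (W → ℤ) →* Module.End ℂ ((W → ℤ) → ℂ) where
  toFun a :=
    { toFun := fun V h => V (h + a.toAdd)
      map_add' := fun V V' => rfl
      map_smul' := fun c V => rfl }
  map_one' := by
    refine LinearMap.ext fun V => funext fun h => ?_
    show V (h + 0) = V h
    rw [add_zero]
  map_mul' a b := by
    refine LinearMap.ext fun V => funext fun h => ?_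
    show V (h + (a.toAdd + b.toAdd)) = V (h + a.toAdd + b.toAdd)
    rw [add_assoc]

/-- polynomials act on functions on `ℤ ^ W`, the variable `X ρ` acts as the difference
`V ↦ V (h + e_ρ) - V h` -/
noncomputable def dact (W : Type) [DecidableEq W] :
    MvPolynomial W ℂ →ₐ[ℂ] Module.End ℂ ((W → ℤ) → ℂ) :=
  (AddMonoidAlgebra.lift ℂ _ (W → ℤ) (shiftHom W)).comp
    (MvPolynomial.aeval fun ρ => AddMonoidAlgebra.single (Pi.single ρ (1 : ℤ)) (1 : ℂ) - 1)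

theorem dact_X (W : Type) [DecidableEq W] (ρ : W) (V : (W → ℤ) → ℂ) (h : W → ℤ) :
    dact W (MvPolynomial.X ρ) V h = V (h + Pi.single ρ 1) - V h := by
  unfold dact
  rw [AlgHom.comp_apply, MvPolynomial.aeval_X, map_sub, map_one, LinearMap.sub_apply,
    AddMonoidAlgebra.lift_single, one_smul]
  rfl

/-- MODULE AVE: a difference operator of high order cannot produce a nonzero constant near the
points `M g` from a function of small growth -/
def AveStmt : Prop :=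
  ∀ (W : Type) [Fintype W] [DecidableEq W] (p : ℕ) (g : W → ℝ) (V : (W → ℤ) → ℂ) (C : ℝ),
    (∀ h, ‖V h‖ ≤ C * (1 + ∑ ρ, |(h ρ : ℝ)|) ^ p) →
    ∀ G : MvPolynomial W ℂ, (∀ α : W →₀ ℕ, ∑ ρ, α ρ ≤ p → G.coeff α = 0) →
    ∀ (η : ℝ) (hη : 0 < η) (M₀ : ℕ) (c : ℂ),
      (∀ M : ℕ, M₀ ≤ M → ∀ h : W → ℤ, (∀ ρ, |(h ρ : ℝ) - M * g ρ| ≤ η * M) →
        dact W G V h = c) → c = 0

/-- the number of lattice points -/
noncomputable def vc {P W : Type} [Fintype P] (lam : P → W → ℤ) (D : Finset P) (h : W → ℤ) : ℂ :=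
  (Nat.card {c : P → ℕ // (∀ i, i ∉ D → c i = 0) ∧ ∀ ρ, 0 ≤ h ρ + ∑ i, (c i : ℤ) * lam i ρ} : ℂ)

/-- MODULE VCNT: properties of the number of lattice points -/
def VcntStmt : Prop :=
  ∀ (P W : Type) [Fintype P] [Fintype W] [DecidableEq P] [DecidableEq W] (lam : P → W → ℤ),
    (∀ c : P → ℝ, (∀ i, 0 ≤ c i) → (∀ ρ, 0 ≤ ∑ i, c i * (lam i ρ : ℝ)) → c = 0) →
    (∃ C : ℝ, ∀ D h, ‖vc lam D h‖ ≤ C * (1 + ∑ ρ, |(h ρ : ℝ)|) ^ Fintype.card P) ∧
    (∀ (D : Finset P), ∀ i ∈ D, ∀ h : W → ℤ,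
      vc lam D (h + lam i) = vc lam D h - vc lam (D.erase i) h) ∧
    (∀ h : W → ℤ, (∀ ρ, 0 ≤ h ρ) → vc lam ∅ h = 1) ∧
    (∀ (g : W → ℚ) (D : Finset P) (S : Finset W), (∀ ρ, 0 < g ρ) →
      ¬ IsFace (fun i ρ => (lam i ρ : ℚ)) g D S →
      ∃ η : ℝ, 0 < η ∧ ∃ M₀ : ℕ, ∀ M : ℕ, M₀ ≤ M → ∀ h : W → ℤ,
        (∀ ρ, |(h ρ : ℝ) - M * g ρ| ≤ η * M) →
        dact W (∏ ρ ∈ S, MvPolynomial.X ρ) (vc lam D) h = 0)

/-- MODULE BDATA: a rational section and generic multiplicities for a facet -/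
def BDataStmt : Prop :=
  ∀ (σ : Type) [Fintype σ] (M : Finset (σ →₀ ℕ)) (κ : σ → ℕ), IsFacet M κ →
    ∃ (m : (σ →₀ ℕ) → ℂ) (lam : (σ →₀ ℕ) → σ → ℚ),
      (∀ α, α ∉ face M κ → m α = 0 ∧ ∀ j, lam α j = 0) ∧
      (∀ α j, κ j = 0 → lam α j = 0) ∧
      (∀ j, κ j ≠ 0 → ∑ α ∈ M, m α * (α j : ℂ) = -1) ∧
      (∀ j, κ j ≠ 0 → ∑ α ∈ M, lam α j * (α j : ℚ) = 1) ∧
      (∀ j j', κ j ≠ 0 → κ j' ≠ 0 → j ≠ j' → ∑ α ∈ M, lam α j * (α j' : ℚ) = 0) ∧
      (∀ α ∈ face M κ, (∃ n : ℤ, m α = n) → (∑ j, lam α j * (α j : ℚ) = 1) ∧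
        ∀ β ∈ face M κ, β ≠ α → ∑ j, lam α j * (β j : ℚ) = 0)

/-- MODULE CORE: roots of the Bernstein-Sato polynomial -/
def CoreStmt : Prop :=
  ∀ (σ : Type) [Fintype σ] (f : MvPolynomial σ ℂ) (κ : σ → ℕ), Simplicial f.support →
    IsFacet f.support κ → ¬ IsB1 f.support κ → ∀ α ∈ face f.support κ,
    (bfun f).eval (-(((∑ i, κ i : ℕ) : ℂ) / (dot κ α : ℕ))) = 0

end Pool.Agent.Helper30_Simp
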