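import Pool.Agent.Helper30_Simp.Fin
import Pool.Agent.Helper15_Simp.Zfin
import Pool.Agent.Helper32_Simp.ConeF
import Pool.Agent.Helper32_Simp.ConeG
import Pool.Agent.Helper32_Simp.Ext
import Pool.Agent.Helper32_Simp.Trunc
import Pool.Agent.Helper39_Simp.Split
import Pool.Agent.Helper39_Simp.Weights
import Pool.Agent.Helper39_Simp.Ytt
import Pool.Agent.Helper42_Simp.ERoot
import Pool.Agent.Helper42_Simp.Polyr
import Pool.Agent.Helper51_Simp.FTS
import Pool.Agent.Helper51_Simp.Lead
import Pool.Agent.Helper51_Simp.P2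
import Pool.Agent.Helper51_Simp.P3
import Pool.Agent.Helper52_Simp.Hen
import Pool.Agent.Helper52_Simp.Vcnt
import Pool.Agent.Helper70_Simp.BData
import Pool.Agent.Helper70_Simp.Ndeg
import Pool.Agent.Helper70_Simp.Strata
import Pool.Agent.Helper94_Simp.Algf
import Pool.Agent.Helper94_Simp.Ave

/-!
# Assembly
-/

set_option autoImplicit false

namespace Pool.Agent.Helper30_Simp

theorem algStmt : AlgStmt := H94.algf H94.ave H52.vcnt

theorem coreStmt : CoreStmt := core H42.eroot algStmt H70.bdata

theorem coneStmt : ConeStmt := H32.coneF (H32.coneG H42.polyr H32.ext)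

theorem zfinStmt : ZfinStmt :=
  H15.zfin H70.strata H51.p1 H51.p2 (H51.p3 H52.hen) H70.ndeg
    (H39.ytt (H39.weights H51.fts) (H39.split H51.fts)) H32.trunc coneStmt

end Pool.Agent.Helper30_Simp
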