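import Pool.Agent.Helper30_Simp.Stmts

/-!
# Gamma sequences and the ring of the nonfaces
-/

set_option autoImplicit false
set_option linter.unusedVariables false
set_option linter.unusedSectionVars false

namespace Pool.Agent.Helper30_Simp

open MvPolynomial

theorem exists_gam {E : Type} [CommRing E] (θ : E) (b₀ : ℤ)
    (hu : ∀ r : ℤ, r < b₀ → IsUnit (θ - (r : E))) :
    ∃ φ : ℤ → E, φ b₀ = 1 ∧ (∀ t : ℤ, φ (t + 1) = (θ - (t : E)) * φ t) ∧
      ∀ t, t ≤ b₀ → IsUnit (φ t) := by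
  classical
  let A : ℕ → E := fun n => ∏ i ∈ Finset.range n, (θ - ((b₀ + i : ℤ) : E))
  let B : ℕ → Eˣ := fun n => ∏ i ∈ Finset.range n,
    ((hu (b₀ - 1 - i) (by omega)).unit⁻¹ : Eˣ)
  refine ⟨fun t => if b₀ ≤ t then A (t - b₀).toNat else (B (b₀ - t).toNat : E), ?_, ?_, ?_⟩
  · show (if b₀ ≤ b₀ then A (b₀ - b₀).toNat else _) = (1 : E)
    rw [if_pos le_rfl, sub_self]
    exact Finset.prod_range_zero _
  · intro t
    show (if b₀ ≤ t + 1 then A (t + 1 - b₀).toNat else (B (b₀ - (t + 1)).toNat : E))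
      = (θ - (t : E)) * (if b₀ ≤ t then A (t - b₀).toNat else (B (b₀ - t).toNat : E))
    rcases le_or_gt b₀ t with h | h
    · obtain ⟨n, hn⟩ : ∃ n : ℕ, t = b₀ + n := ⟨(t - b₀).toNat, by omega⟩
      rw [if_pos (by omega), if_pos h, show (t + 1 - b₀).toNat = n + 1 by omega,
        show (t - b₀).toNat = n by omega]
      show ∏ i ∈ Finset.range (n + 1), (θ - ((b₀ + i : ℤ) : E)) = _
      rw [Finset.prod_range_succ, mul_comm, hn]
    · obtain ⟨n, hn⟩ : ∃ n : ℕ, t = b₀ - 1 - n := ⟨(b₀ - 1 - t).toNat, by omega⟩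
      rw [if_neg (not_le.2 h), show (b₀ - t).toNat = n + 1 by omega]
      have hB : (θ - (t : E)) * ((B (n + 1) : Eˣ) : E) = ((B n : Eˣ) : E) := by
        have h1 : B (n + 1) = B n * (hu (b₀ - 1 - n) (by omega)).unit⁻¹ :=
          Finset.prod_range_succ _ _
        have h2 : ((hu (b₀ - 1 - n) (by omega)).unit : E) = θ - ((t : ℤ) : E) := by
          rw [IsUnit.unit_spec, hn]
        rw [h1, Units.val_mul, ← h2, mul_left_comm, Units.mul_inv, mul_one]
      rw [hB]
      split_ifs with h3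
      · have h4 : n = 0 := by omega
        subst h4
        rw [show (t + 1 - b₀).toNat = 0 by omega]
        show ∏ i ∈ Finset.range 0, (θ - ((b₀ + i : ℤ) : E)) = ((B 0 : Eˣ) : E)
        have : B 0 = 1 := Finset.prod_range_zero _
        rw [this, Finset.prod_range_zero, Units.val_one]
      · rw [show (b₀ - (t + 1)).toNat = n by omega]
  · intro t ht
    show IsUnit (if b₀ ≤ t then A (t - b₀).toNat else (B (b₀ - t).toNat : E))
    split_ifs with h
    · have : (t - b₀).toNat = 0 := by omega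
      rw [this]
      show IsUnit (∏ i ∈ Finset.range 0, (θ - ((b₀ + i : ℤ) : E)))
      rw [Finset.prod_range_zero]
      exact isUnit_one
    · exact Units.isUnit _

theorem gam_dvd {E : Type} [CommRing E] {θ : E} {φ : ℤ → E}
    (h : ∀ t : ℤ, φ (t + 1) = (θ - (t : E)) * φ t) {r t : ℤ} (hrt : r < t) :
    (θ - (r : E)) ∣ φ t := by
  obtain ⟨n, rfl⟩ : ∃ n : ℕ, t = r + 1 + n := ⟨(t - (r + 1)).toNat, by omega⟩
  clear hrt
  induction n with
  | zero =>
    rw [Nat.cast_zero, add_zero, h]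
    exact dvd_mul_right _ _
  | succ n ih =>
    have : r + 1 + ((n + 1 : ℕ) : ℤ) = r + 1 + n + 1 := by push_cast; ring
    rw [this, h]
    exact dvd_mul_of_dvd_right ih _

theorem gam_assoc {E : Type} [CommRing E] {θ : E} {φ : ℤ → E}
    (h : ∀ t : ℤ, φ (t + 1) = (θ - (t : E)) * φ t) {b₀ : ℤ} (h0 : φ b₀ = 1) {t : ℤ}
    (ht : b₀ < t) (hu : ∀ r : ℤ, b₀ < r → r < t → IsUnit (θ - (r : E))) :
    ∃ u : E, IsUnit u ∧ φ t = u * (θ - (b₀ : E)) := by
  obtain ⟨n, rfl⟩ : ∃ n : ℕ, t = b₀ + 1 + n := ⟨(t - (b₀ + 1)).toNat, by omega⟩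
  clear ht
  induction n with
  | zero =>
    refine ⟨1, isUnit_one, ?_⟩
    rw [Nat.cast_zero, add_zero, h, h0, mul_one, one_mul]
  | succ n ih =>
    obtain ⟨u, hu1, hu2⟩ := ih fun r hr hr' => hu r hr (by push_cast at *; omega)
    refine ⟨(θ - ((b₀ + 1 + n : ℤ) : E)) * u, (hu _ (by omega) (by push_cast; omega)).mul hu1, ?_⟩
    have : b₀ + 1 + ((n + 1 : ℕ) : ℤ) = b₀ + 1 + n + 1 := by push_cast; ring
    rw [this, h, hu2, mul_assoc]

theorem isUnit_alg_add {E : Type} [CommRing E] [Algebra ℂ E] {c : ℂ} (hc : c ≠ 0) {x : E}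
    (hx : IsNilpotent x) : IsUnit (algebraMap ℂ E c + x) := by
  have h1 : IsUnit (algebraMap ℂ E c) := (isUnit_iff_ne_zero.2 hc).map _
  exact hx.isUnit_add_left_of_commute h1 (Commute.all _ _)

/-! ### the ring -/

section ring

variable {P W : Type} [Fintype P] [Fintype W] (lam : P → W → ℚ) (g : W → ℚ)

/-- the ring of the nonfaces -/
def NF' : Type := MvPolynomial W ℂ ⧸ nfIdeal lam g

noncomputable instance : CommRing (NF' lam g) :=
  inferInstanceAs (CommRing (MvPolynomial W ℂ ⧸ nfIdeal lam g))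

noncomputable instance : Algebra ℂ (NF' lam g) :=
  inferInstanceAs (Algebra ℂ (MvPolynomial W ℂ ⧸ nfIdeal lam g))

/-- the projection -/
noncomputable def pr : MvPolynomial W ℂ →ₐ[ℂ] NF' lam g := Ideal.Quotient.mkₐ ℂ (nfIdeal lam g)

theorem pr_zero {x : MvPolynomial W ℂ} : pr lam g x = 0 ↔ x ∈ nfIdeal lam g :=
  Ideal.Quotient.eq_zero_iff_mem

/-- the variables -/
noncomputable def Xv (ρ : W) : NF' lam g := pr lam g (X ρ)

/-- linear forms -/
noncomputable def lin (v : W → ℚ) : NF' lam g := ∑ ρ, algebraMap ℂ _ ((v ρ : ℚ) : ℂ) * Xv lam g ρ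

theorem lin_lam (i : P) : lin lam g (lam i) = pr lam g (lf lam i) := by
  unfold lin lf Xv
  rw [map_sum]
  refine Finset.sum_congr rfl fun ρ _ => ?_
  rw [map_mul]
  exact congrArg (· * pr lam g (X ρ)) ((pr lam g).commutes ((lam i ρ : ℚ) : ℂ)).symm

theorem lin_zero : lin lam g (fun _ => 0) = 0 := by
  unfold lin
  simp

theorem lin_add (v v' : W → ℚ) : lin lam g (fun ρ => v ρ + v' ρ) = lin lam g v + lin lam g v' := by
  unfold lin
  rw [← Finset.sum_add_distrib]
  refine Finset.sum_congr rfl fun ρ _ => ?_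
  rw [Rat.cast_add, map_add, add_mul]

theorem lin_nsmul (c : ℕ) (v : W → ℚ) :
    lin lam g (fun ρ => v ρ * c) = lin lam g v * (c : NF' lam g) := by
  unfold lin
  rw [Finset.sum_mul]
  refine Finset.sum_congr rfl fun ρ _ => ?_
  rw [Rat.cast_mul, Rat.cast_natCast, map_mul, map_natCast]
  ring

theorem lin_sum {ι : Type} (s : Finset ι) (v : ι → W → ℚ) :
    lin lam g (fun ρ => ∑ i ∈ s, v i ρ) = ∑ i ∈ s, lin lam g (v i) := by
  classical
  induction s using Finset.induction_on with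
  | empty => simpa using lin_zero lam g
  | insert a s ha ih =>
    rw [Finset.sum_insert ha, ← ih, ← lin_add]
    congr 1
    funext ρ
    rw [Finset.sum_insert ha]

theorem X_nilpotent (ρ : W) : IsNilpotent (Xv lam g ρ) := by
  classical
  refine ⟨Fintype.card P + 1, ?_⟩
  unfold Xv
  rw [← map_pow, pr_zero]
  refine Ideal.subset_span (Or.inr ⟨Finsupp.single ρ (Fintype.card P + 1), ?_, ?_⟩)
  · rw [Finset.sum_eq_single ρ]
    · rw [Finsupp.single_eq_same]
    · intro b _ hb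
      rw [Finsupp.single_eq_of_ne hb]
    · intro h; exact absurd (Finset.mem_univ _) h
  · rw [X_pow_eq_monomial]

theorem lin_nilpotent (v : W → ℚ) : IsNilpotent (lin lam g v) := by
  rw [← mem_nilradical]
  unfold lin
  exact Ideal.sum_mem _ fun ρ _ => Ideal.mul_mem_left _ _ (mem_nilradical.2 (X_nilpotent lam g ρ))

/-- the vanishing of the products of the nonfaces -/
theorem nonface_zero {D : Finset P} {S : Finset W} (h : ¬ IsFace lam g D S) {D' : Finset P}
    (hD : ∀ i, i ∈ D' ↔ i ∉ D) :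
    (∏ ρ ∈ S, Xv lam g ρ) * ∏ i ∈ D', lin lam g (lam i) = 0 := by
  classical
  have h1 : ∏ i ∈ D', lin lam g (lam i) = pr lam g (∏ i ∈ Finset.univ \ D, lf lam i) := by
    rw [map_prod]
    refine Finset.prod_congr ?_ fun i _ => lin_lam lam g i
    ext i
    rw [hD]
    simp
  have h2 : ∏ ρ ∈ S, Xv lam g ρ = pr lam g (∏ ρ ∈ S, X ρ) := by
    rw [map_prod]
    rfl
  rw [h1, h2, ← map_mul, pr_zero]
  refine Ideal.subset_span (Or.inl ⟨D, S, h, ?_⟩)
  congr 1

theorem vertex_ne (hA : AlgStmt) (hg : ∀ ρ, 0 < g ρ)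
    (hrec : ∀ c : P → ℝ, (∀ i, 0 ≤ c i) → (∀ ρ, 0 ≤ ∑ i, c i * (lam i ρ : ℝ)) → c = 0) :
    ∏ i, lin lam g (lam i) ≠ 0 := by
  have h1 : ∏ i, lin lam g (lam i) = pr lam g (∏ i, lf lam i) := by
    rw [map_prod]
    exact Finset.prod_congr rfl fun i _ => lin_lam lam g i
  rw [h1, Ne, pr_zero]
  exact hA P W lam g hg hrec

end ring

end Pool.Agent.Helper30_Simp
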