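import Pool.Agent.Helper30_Simp.Core1
import Pool.Agent.Helper30_Simp.Core2

/-!
# The geometry of a facet
-/

set_option autoImplicit false
set_option linter.unusedVariables false
set_option linter.unusedSectionVars false

namespace Pool.Agent.Helper30_Simp

open MvPolynomial Pool.Agent.Helper6_Mono

/-- the data of a facet -/
structure BD {σ : Type} [Fintype σ] (M : Finset (σ →₀ ℕ)) (κ : σ → ℕ) where
  m : (σ →₀ ℕ) → ℂ
  lam : (σ →₀ ℕ) → σ → ℚ
  N : ℕ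
  hN : 0 < N
  face_iff : ∀ α, α ∈ face M κ ↔ α ∈ M ∧ dot κ α = N
  ge : ∀ α ∈ M, N ≤ dot κ α
  m_zero : ∀ α, α ∉ face M κ → m α = 0
  lam_zero : ∀ α, α ∉ face M κ → ∀ j, lam α j = 0
  lamJ : ∀ α j, κ j = 0 → lam α j = 0
  sum_m : ∀ j, κ j ≠ 0 → ∑ α ∈ M, m α * (α j : ℂ) = -1
  sec1 : ∀ j, κ j ≠ 0 → ∑ α ∈ M, lam α j * (α j : ℚ) = 1
  sec2 : ∀ j j', κ j ≠ 0 → κ j' ≠ 0 → j ≠ j' → ∑ α ∈ M, lam α j * (α j' : ℚ) = 0
  forced : ∀ α ∈ face M κ, (∃ n : ℤ, m α = n) → (∑ j, lam α j * (α j : ℚ) = 1) ∧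
    ∀ β ∈ face M κ, β ≠ α → ∑ j, lam α j * (β j : ℚ) = 0
  simp : Simplicial M
  nb : ¬ IsB1 M κ

theorem BData_BD (hD : BDataStmt) {σ : Type} [Fintype σ] {M : Finset (σ →₀ ℕ)} {κ : σ → ℕ}
    (hS : Simplicial M) (hF : IsFacet M κ) (hB : ¬ IsB1 M κ) {α₀ : σ →₀ ℕ}
    (hα₀ : α₀ ∈ face M κ) : ∃ B : BD M κ, B.N = dot κ α₀ := by
  obtain ⟨m, lam, h1, h2, h3, h4, h5, h6⟩ := hD σ M κ hF
  refine ⟨⟨m, lam, dot κ α₀, hF.1 _ hα₀.1, fun α => ⟨fun h => ⟨h.1, ?_⟩, fun h => ⟨h.1, ?_⟩⟩,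
    fun α hα => hα₀.2 α hα, fun α hα => (h1 α hα).1, fun α hα => (h1 α hα).2, h2, h3, h4, h5, h6,
    hS, hB⟩, rfl⟩
  · exact le_antisymm (h.2 _ hα₀.1) (hα₀.2 _ h.1)
  · intro β hβ
    rw [h.2]
    exact hα₀.2 β hβ

namespace BD

variable {σ : Type} [Fintype σ] {M : Finset (σ →₀ ℕ)} {κ : σ → ℕ} (B : BD M κ)

open scoped Classical

/-- the resonant monomials -/
noncomputable def Pf : Finset (σ →₀ ℕ) :=
  M.filter fun α => α ∈ face M κ ∧ ∃ n : ℤ, n < 0 ∧ B.m α = n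

/-- the monomials outside the facet -/
noncomputable def Hf (_B : BD M κ) : Finset (σ →₀ ℕ) := M.filter fun α => α ∉ face M κ

/-- the variables with positive weight -/
noncomputable def Jf (_B : BD M κ) : Finset σ := Finset.univ.filter fun j => κ j ≠ 0

/-- the walls -/
abbrev Wl : Type := B.Jf ⊕ B.Hf

/-- the values of the functional `lam α` on the walls -/
noncomputable def Lw (α : σ →₀ ℕ) : B.Wl → ℚ
  | Sum.inl j => B.lam α j
  | Sum.inr β => ∑ j, B.lam α j * ((β : σ →₀ ℕ) j : ℚ)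

/-- the values of the walls at `κ` -/
noncomputable def gW : B.Wl → ℚ
  | Sum.inl j => (κ j : ℚ)
  | Sum.inr β => ((dot κ (β : σ →₀ ℕ) : ℕ) : ℚ) - B.N

/-- the slopes of the walls -/
noncomputable def lW (i : B.Pf) : B.Wl → ℚ := B.Lw i

theorem mem_Pf {α : σ →₀ ℕ} : α ∈ B.Pf ↔ α ∈ face M κ ∧ ∃ n : ℤ, n < 0 ∧ B.m α = n := by
  unfold Pf
  rw [Finset.mem_filter]
  exact ⟨fun h => h.2, fun h => ⟨h.1.1, h⟩⟩

theorem mem_Hf {α : σ →₀ ℕ} : α ∈ B.Hf ↔ α ∈ M ∧ α ∉ face M κ := by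
  unfold Hf
  rw [Finset.mem_filter]

theorem mem_Jf {j : σ} : j ∈ B.Jf ↔ κ j ≠ 0 := by
  unfold Jf
  simp

/-- the integral multiplicity -/
noncomputable def nn (i : B.Pf) : ℤ := (B.mem_Pf.1 i.2).2.choose

theorem nn_neg (i : B.Pf) : B.nn i < 0 := (B.mem_Pf.1 i.2).2.choose_spec.1

theorem nn_eq (i : B.Pf) : B.m i = B.nn i := (B.mem_Pf.1 i.2).2.choose_spec.2

theorem gW_pos (ρ : B.Wl) : 0 < B.gW ρ := by
  rcases ρ with j | β
  · have := B.mem_Jf.1 j.2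
    show (0 : ℚ) < (κ j : ℚ)
    exact_mod_cast Nat.pos_of_ne_zero this
  · have h1 := B.mem_Hf.1 β.2
    have h2 := B.ge _ h1.1
    have h3 : dot κ (β : σ →₀ ℕ) ≠ B.N := fun h => h1.2 ((B.face_iff _).2 ⟨h1.1, h⟩)
    have h4 : B.N < dot κ (β : σ →₀ ℕ) := lt_of_le_of_ne h2 (Ne.symm h3)
    show (0 : ℚ) < ((dot κ (β : σ →₀ ℕ) : ℕ) : ℚ) - B.N
    have : (B.N : ℚ) < ((dot κ (β : σ →₀ ℕ) : ℕ) : ℚ) := by exact_mod_cast h4
    linarith

/-- the dual basis property on the facet -/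
theorem forced_eq (i : B.Pf) {β : σ →₀ ℕ} (hβ : β ∈ face M κ) :
    ∑ j, B.lam i j * (β j : ℚ) = if β = i then 1 else 0 := by
  have h1 := B.mem_Pf.1 i.2
  have h2 := B.forced i h1.1 ⟨h1.2.choose, h1.2.choose_spec.2⟩
  split_ifs with h
  · rw [h]; exact h2.1
  · exact h2.2 β hβ h

/-! ### weight vectors -/

/-- the weight vector with parameters `c` -/
noncomputable def uu (c : B.Pf → ℝ) (j : σ) : ℝ := (κ j : ℝ) + ∑ i, c i * (B.lam i j : ℝ)

/-- the excess -/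
noncomputable def ee (c : B.Pf → ℝ) (α : σ →₀ ℕ) : ℝ := dot (B.uu c) α - B.N

theorem uu_J (c : B.Pf → ℝ) {j : σ} (h : κ j = 0) : B.uu c j = 0 := by
  unfold uu
  rw [h]
  simp [B.lamJ _ j h]

theorem dot_uu (c : B.Pf → ℝ) (α : σ →₀ ℕ) : dot (B.uu c) α
    = ((dot κ α : ℕ) : ℝ) + ∑ i, c i * ((∑ j, B.lam i j * (α j : ℚ) : ℚ) : ℝ) := by
  unfold dot uu
  push_cast
  simp_rw [add_mul, Finset.sum_add_distrib, Finset.sum_mul, Finset.mul_sum]
  rw [Finset.sum_comm]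
  congr 1
  refine Finset.sum_congr rfl fun i _ => Finset.sum_congr rfl fun j _ => ?_
  ring

theorem uu_wall (c : B.Pf → ℝ) (j : B.Jf) :
    (B.gW (Sum.inl j) : ℝ) + ∑ i, c i * (B.lW i (Sum.inl j) : ℝ) = B.uu c j := by
  show (((κ j : ℕ) : ℚ) : ℝ) + ∑ i, c i * (B.lam i j : ℝ) = _
  unfold uu
  push_cast
  rfl

theorem ee_wall (c : B.Pf → ℝ) (β : B.Hf) :
    (B.gW (Sum.inr β) : ℝ) + ∑ i, c i * (B.lW i (Sum.inr β) : ℝ) = B.ee c β := by
  unfold ee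
  rw [dot_uu]
  show ((((dot κ (β : σ →₀ ℕ) : ℕ) : ℚ) - (B.N : ℚ) : ℚ) : ℝ)
    + ∑ i, c i * ((∑ j, B.lam i j * ((β : σ →₀ ℕ) j : ℚ) : ℚ) : ℝ) = _
  push_cast
  ring

theorem ee_face (c : B.Pf → ℝ) {α : σ →₀ ℕ} (hα : α ∈ face M κ) :
    B.ee c α = ∑ i : B.Pf, if α = i then c i else 0 := by
  unfold ee
  rw [dot_uu, ((B.face_iff α).1 hα).2, add_sub_cancel_left]
  refine Finset.sum_congr rfl fun i _ => ?_
  rw [B.forced_eq i hα]
  split_ifs
  · simp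
  · simp

theorem ee_Pf (c : B.Pf → ℝ) (i : B.Pf) : B.ee c i = c i := by
  rw [B.ee_face c (B.mem_Pf.1 i.2).1, Finset.sum_eq_single i]
  · rw [if_pos rfl]
  · intro b _ hb
    rw [if_neg]
    intro h
    exact hb (Subtype.ext h.symm)
  · intro h; exact absurd (Finset.mem_univ _) h

theorem ee_face_not (c : B.Pf → ℝ) {α : σ →₀ ℕ} (hα : α ∈ face M κ) (h : α ∉ B.Pf) :
    B.ee c α = 0 := by
  rw [B.ee_face c hα]
  refine Finset.sum_eq_zero fun i _ => ?_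
  rw [if_neg]
  rintro rfl
  exact h i.2

/-- the conditions of a face -/
def Fc (D : Finset B.Pf) (A : Finset B.Jf) (H : Finset B.Hf) (c : B.Pf → ℝ) : Prop :=
  (∀ i, 0 ≤ c i) ∧ (∀ i, i ∉ D → c i = 0) ∧ (∀ j, 0 ≤ B.uu c j) ∧ (∀ α ∈ M, 0 ≤ B.ee c α) ∧
    (∀ j ∈ A, B.uu c j = 0) ∧ ∀ β ∈ H, B.ee c β = 0

theorem exists_Fc {D : Finset B.Pf} {A : Finset B.Jf} {H : Finset B.Hf}
    (h : IsFace B.lW B.gW D (A.disjSum H)) : ∃ c, B.Fc D A H c := by
  obtain ⟨c, h1, h2, h3, h4⟩ := h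
  refine ⟨c, h1, h2, fun j => ?_, fun α hα => ?_, fun j hj => ?_, fun β hβ => ?_⟩
  · by_cases hj : κ j = 0
    · rw [B.uu_J c hj]
    · have := h3 (Sum.inl ⟨j, B.mem_Jf.2 hj⟩)
      rwa [B.uu_wall] at this
  · by_cases hf : α ∈ face M κ
    · by_cases hp : α ∈ B.Pf
      · have := B.ee_Pf c ⟨α, hp⟩
        rw [this]
        exact h1 _
      · rw [B.ee_face_not c hf hp]
    · have := h3 (Sum.inr ⟨α, B.mem_Hf.2 ⟨hα, hf⟩⟩)
      rwa [B.ee_wall] at this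
  · have := h4 (Sum.inl j) (Finset.inl_mem_disjSum.2 hj)
    rwa [B.uu_wall] at this
  · have := h4 (Sum.inr β) (Finset.inr_mem_disjSum.2 hβ)
    rwa [B.ee_wall] at this

/-- the main identity -/
theorem key (c : B.Pf → ℝ) {t : M → ℤ} {l : ℤ} {w : σ → ℤ} (hl : ∑ α, t α = l)
    (hw : ∀ j, ∑ α, t α * ((α : σ →₀ ℕ) j : ℤ) = w j) :
    ∑ j, B.uu c j * (w j : ℝ) = B.N * l + ∑ α : M, (t α : ℝ) * B.ee c α := by
  have h1 : ∑ α : M, (t α : ℝ) * B.ee c α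
      = ∑ α : M, (t α : ℝ) * dot (B.uu c) (α : σ →₀ ℕ) - B.N * l := by
    unfold ee
    simp_rw [mul_sub, Finset.sum_sub_distrib]
    congr 1
    rw [← Finset.sum_mul, ← hl]
    push_cast
    ring
  rw [h1, add_sub_cancel]
  unfold dot
  simp_rw [← hw]
  push_cast
  simp_rw [Finset.mul_sum]
  rw [Finset.sum_comm]
  refine Finset.sum_congr rfl fun α _ => Finset.sum_congr rfl fun j _ => ?_
  ring

/-- the independence of the monomials without excess -/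
theorem indep {c : B.Pf → ℝ} (hu : ∀ j, 0 ≤ B.uu c j) (he : ∀ α ∈ M, 0 ≤ B.ee c α) {t : M → ℤ}
    (ht : ∀ j, ∑ α, t α * ((α : σ →₀ ℕ) j : ℤ) = 0) (h0 : ∀ α : M, 0 < B.ee c α → t α = 0) :
    t = 0 := by
  classical
  by_cases hex : ∃ α₁ ∈ M, B.ee c α₁ = 0
  · obtain ⟨α₁, hα₁, hα₁'⟩ := hex
    have hN : (0 : ℝ) < B.N := by exact_mod_cast B.hN
    have h1 := B.simp (B.uu c) hu (fun α hα => by
      have := he α hα
      unfold ee at this
      linarith)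
    have hface : ∀ α : M, B.ee c α = 0 → (α : σ →₀ ℕ) ∈ face M (B.uu c) := by
      intro α hα
      refine ⟨α.2, fun β hβ => ?_⟩
      have := he β hβ
      unfold ee at this hα
      linarith
    have hface' : ∀ α : M, (α : σ →₀ ℕ) ∈ face M (B.uu c) → B.ee c α = 0 := by
      intro α hα
      have h2 := hα.2 α₁ hα₁
      have h3 := he α α.2
      unfold ee at *
      linarith
    have hfin : Finite (face M (B.uu c)) := Set.Finite.subset M.finite_toSet fun α hα => hα.1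
    have hft : Fintype (face M (B.uu c)) := Fintype.ofFinite _
    rw [Fintype.linearIndependent_iff] at h1
    have h2 := h1 (fun α => (t ⟨α.1, α.2.1⟩ : ℝ)) (by
      funext j
      rw [Finset.sum_apply]
      simp only [Pi.smul_apply, smul_eq_mul, Pi.zero_apply]
      have h3 := congrArg (fun z : ℤ => (z : ℝ)) (ht j)
      simp only [Int.cast_sum, Int.cast_mul, Int.cast_natCast, Int.cast_zero] at h3
      rw [← h3]
      have h4 : ∑ α : M, (t α : ℝ) * (((α : σ →₀ ℕ) j : ℕ) : ℝ)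
          = ∑ α ∈ Finset.univ.filter (fun α : M => (α : σ →₀ ℕ) ∈ face M (B.uu c)),
            (t α : ℝ) * (((α : σ →₀ ℕ) j : ℕ) : ℝ) := by
        symm
        refine Finset.sum_subset (Finset.subset_univ _) fun α _ hα => ?_
        rw [Finset.mem_filter, not_and] at hα
        have h5 := hα (Finset.mem_univ _)
        have h6 : 0 < B.ee c α := lt_of_le_of_ne (he α α.2) fun h => h5 (hface α h.symm)
        rw [h0 α h6, Int.cast_zero, zero_mul]
      rw [h4]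
      refine Finset.sum_bij' (fun α _ => ⟨α.1, α.2.1⟩) (fun α hα => ⟨α.1, (Finset.mem_filter.1 hα).2⟩)
        ?_ ?_ ?_ ?_ ?_
      · intro α _
        exact Finset.mem_filter.2 ⟨Finset.mem_univ _, α.2⟩
      · intro α _
        exact Finset.mem_univ _
      · intro α _; rfl
      · intro α _; rfl
      · intro α _; rfl)
    funext α
    by_cases h3 : B.ee c α = 0
    · have := h2 ⟨α.1, hface α h3⟩
      simpa using this
    · exact h0 α (lt_of_le_of_ne (he α α.2) (Ne.symm h3))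
  · push Not at hex
    funext α
    exact h0 α (lt_of_le_of_ne (he α α.2) (Ne.symm (hex α α.2)))

/-- the polytope is bounded, since the facet is not `B₁` -/
theorem bounded (c : B.Pf → ℝ) (hc : ∀ i, 0 ≤ c i)
    (h : ∀ ρ, 0 ≤ ∑ i, c i * (B.lW i ρ : ℝ)) : c = 0 := by
  classical
  by_contra hne
  obtain ⟨i₀, hi₀⟩ : ∃ i, c i ≠ 0 := by
    by_contra h'
    push Not at h'
    exact hne (funext h')
  have hi₀' : 0 < c i₀ := lt_of_le_of_ne (hc i₀) (Ne.symm hi₀)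
  -- the vector v
  let v : σ → ℝ := fun j => ∑ i, c i * (B.lam i j : ℝ)
  have hv : ∀ j, 0 ≤ v j := by
    intro j
    by_cases hj : κ j = 0
    · have : v j = 0 := by
        show ∑ i, c i * (B.lam i j : ℝ) = 0
        simp [B.lamJ _ j hj]
      rw [this]
    · exact h (Sum.inl ⟨j, B.mem_Jf.2 hj⟩)
  have hvα : ∀ α ∈ face M κ, ∑ j, v j * (α j : ℝ) = ∑ i : B.Pf, if α = i then c i else 0 := by
    intro α hα
    have h1 := B.ee_face c hα
    rw [← h1]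
    unfold ee
    rw [dot_uu, ((B.face_iff α).1 hα).2, add_sub_cancel_left]
    show ∑ j, (∑ i, c i * (B.lam i j : ℝ)) * (α j : ℝ) = _
    simp_rw [Finset.sum_mul]
    rw [Finset.sum_comm]
    refine Finset.sum_congr rfl fun i _ => ?_
    push_cast
    rw [Finset.mul_sum]
    exact Finset.sum_congr rfl fun j _ => by ring
  have hvi : ∑ j, v j * ((i₀ : σ →₀ ℕ) j : ℝ) = c i₀ := by
    rw [hvα _ (B.mem_Pf.1 i₀.2).1, Finset.sum_eq_single i₀]
    · rw [if_pos rfl]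
    · intro b _ hb
      rw [if_neg]
      intro h'
      exact hb (Subtype.ext h'.symm)
    · intro h; exact absurd (Finset.mem_univ _) h
  -- a coordinate with v_j > 0
  obtain ⟨j, hj⟩ : ∃ j, 0 < v j := by
    by_contra h'
    push Not at h'
    have h2 : ∀ j, v j = 0 := fun j => le_antisymm (h' j) (hv j)
    rw [Finset.sum_eq_zero fun j _ => by rw [h2 j, zero_mul]] at hvi
    exact hi₀ hvi.symm
  have hκj : κ j ≠ 0 := by
    intro h'
    have : v j = 0 := by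
      show ∑ i, c i * (B.lam i j : ℝ) = 0
      simp [B.lamJ _ j h']
    rw [this] at hj
    exact lt_irrefl _ hj
  -- monomials of the facet with c = 0 do not contain x_j
  have hz : ∀ α ∈ face M κ, (∀ h : α ∈ B.Pf, c ⟨α, h⟩ = 0) → α j = 0 := by
    intro α hα hc0
    have h1 : ∑ l, v l * (α l : ℝ) = 0 := by
      rw [hvα α hα]
      refine Finset.sum_eq_zero fun i _ => ?_
      split_ifs with h2
      · subst h2
        exact hc0 i.2
      · rfl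
    have h2 := (Finset.sum_eq_zero_iff_of_nonneg (fun l _ => mul_nonneg (hv l)
      (Nat.cast_nonneg _))).1 h1 j (Finset.mem_univ _)
    rcases mul_eq_zero.1 h2 with h3 | h3
    · exact absurd h3 hj.ne'
    · exact_mod_cast h3
  -- the equation for the variable j
  have hsum := B.sum_m j hκj
  let n' : (σ →₀ ℕ) → ℤ := fun α => if h : α ∈ B.Pf then B.nn ⟨α, h⟩ else 0
  have hn' : ∀ α ∈ M, B.m α * (α j : ℂ) = ((n' α * (α j : ℤ) : ℤ) : ℂ) := by
    intro α hα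
    by_cases h1 : α ∈ B.Pf
    · have h2 : n' α = B.nn ⟨α, h1⟩ := dif_pos h1
      have h3 := B.nn_eq ⟨α, h1⟩
      rw [h2]
      push_cast
      rw [← h3]
    · have h2 : n' α = 0 := dif_neg h1
      rw [h2]
      by_cases h3 : α ∈ face M κ
      · rw [hz α h3 fun h => absurd h h1]
        simp
      · rw [B.m_zero α h3]
        simp
  rw [Finset.sum_congr rfl hn', ← Int.cast_sum] at hsum
  have hsum' : ∑ α ∈ M, -(n' α * (α j : ℤ)) = 1 := by
    rw [Finset.sum_neg_distrib]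
    have : (∑ α ∈ M, n' α * (α j : ℤ)) = -1 := by
      have h9 : ((∑ α ∈ M, n' α * (α j : ℤ) : ℤ) : ℂ) = ((-1 : ℤ) : ℂ) := by
        rw [hsum]; norm_num
      exact_mod_cast h9
    rw [this]
    ring
  have hnn : ∀ α ∈ M, 0 ≤ -(n' α * (α j : ℤ)) := by
    intro α hα
    by_cases h1 : α ∈ B.Pf
    · have h2 : n' α = B.nn ⟨α, h1⟩ := dif_pos h1
      have h3 := B.nn_neg ⟨α, h1⟩
      rw [h2]
      have : (0 : ℤ) ≤ (α j : ℤ) := Int.natCast_nonneg _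
      nlinarith
    · have h2 : n' α = 0 := dif_neg h1
      rw [h2]
      simp
  obtain ⟨α₁, hα₁, h1⟩ : ∃ α₁ ∈ M, -(n' α₁ * (α₁ j : ℤ)) ≠ 0 := by
    by_contra h'
    push Not at h'
    rw [Finset.sum_eq_zero h'] at hsum'
    exact zero_ne_one hsum'
  have h2 : -(n' α₁ * (α₁ j : ℤ)) = 1 ∧ ∑ α ∈ M.erase α₁, -(n' α * (α j : ℤ)) = 0 := by
    have h3 := Finset.add_sum_erase M (fun α => -(n' α * (α j : ℤ))) hα₁
    have h4 : 0 ≤ ∑ α ∈ M.erase α₁, -(n' α * (α j : ℤ)) :=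
      Finset.sum_nonneg fun α hα => hnn α (Finset.mem_of_mem_erase hα)
    have h5 := hnn α₁ hα₁
    rw [hsum'] at h3
    constructor <;> omega
  have h3 : α₁ ∈ B.Pf := by
    by_contra h'
    have : n' α₁ = 0 := dif_neg h'
    rw [this] at h1
    simp at h1
  have h4 : α₁ j = 1 := by
    have h5 : n' α₁ * (α₁ j : ℤ) = -1 := by omega
    have h6 : ((α₁ j : ℕ) : ℤ) ∣ 1 := ⟨-n' α₁, by linarith [mul_comm (n' α₁) (α₁ j : ℤ)]⟩
    have h7 := Int.natCast_dvd_natCast.1 (by simpa using h6 : ((α₁ j : ℕ) : ℤ) ∣ ((1 : ℕ) : ℤ))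
    exact Nat.dvd_one.1 h7
  refine B.nb ⟨j, hκj, α₁, (B.mem_Pf.1 h3).1, h4, fun β hβ hne' => ?_⟩
  by_cases h5 : β ∈ B.Pf
  · have hβM : β ∈ M := hβ.1
    have h6 := (Finset.sum_eq_zero_iff_of_nonneg (fun α hα =>
      hnn α (Finset.mem_of_mem_erase hα))).1 h2.2 β (Finset.mem_erase.2 ⟨hne', hβM⟩)
    have h7 : n' β = B.nn ⟨β, h5⟩ := dif_pos h5
    have h8 := B.nn_neg ⟨β, h5⟩
    rw [h7, neg_eq_zero] at h6
    rcases mul_eq_zero.1 h6 with h9 | h9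
    · omega
    · exact_mod_cast h9
  · exact hz β hβ fun h => absurd h h5

end BD

end Pool.Agent.Helper30_Simp
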