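import Pool.Agent.Helper30_Simp.Core3

/-!
# Roots of the Bernstein-Sato polynomial from facets
-/

set_option autoImplicit false
set_option linter.unusedVariables false
set_option linter.unusedSectionVars false

namespace Pool.Agent.Helper30_Simp

open MvPolynomial Pool.Agent.Helper6_Mono

namespace BD

open scoped Classical

variable {σ : Type} [Fintype σ] {f : MvPolynomial σ ℂ} {κ : σ → ℕ} (B : BD f.support κ)

/-- the coefficient ring -/
abbrev E : Type := NF' B.lW B.gW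

/-- the variables of the coefficient ring -/
noncomputable def Xr (ρ : B.Wl) : B.E := Xv B.lW B.gW ρ

/-- the infinitesimal parts of the multiplicities -/
noncomputable def mu (α : σ →₀ ℕ) : B.E :=
  if h : α ∈ B.Hf then B.Xr (Sum.inr ⟨α, h⟩) else - lin B.lW B.gW (B.Lw α)

/-- the multiplicities -/
noncomputable def th (α : σ →₀ ℕ) : B.E := algebraMap ℂ B.E (B.m α) + B.mu α

/-- the base points of the Gamma sequences -/
noncomputable def b0 (α : σ →₀ ℕ) : ℤ := if h : α ∈ B.Pf then B.nn ⟨α, h⟩ else 0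

theorem mu_nil (α : σ →₀ ℕ) : IsNilpotent (B.mu α) := by
  unfold mu
  split_ifs with h
  · exact X_nilpotent _ _ _
  · exact (lin_nilpotent _ _ _).neg

theorem th_unit (α : σ →₀ ℕ) (hα : α ∈ f.support) (r : ℤ) (hr : B.m α ≠ r) :
    IsUnit (B.th α - (r : B.E)) := by
  have h1 : B.th α - (r : B.E) = algebraMap ℂ B.E (B.m α - r) + B.mu α := by
    unfold th
    rw [map_sub, map_intCast]
    ring
  rw [h1]
  exact isUnit_alg_add (sub_ne_zero.2 hr) (B.mu_nil α)

theorem m_ne (α : σ →₀ ℕ) (hα : α ∈ f.support) (r : ℤ) (hr : r < B.b0 α) : B.m α ≠ r := by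
  intro h
  unfold b0 at hr
  split_ifs at hr with h1
  · rw [B.nn_eq ⟨α, h1⟩] at h
    have : B.nn ⟨α, h1⟩ = r := by exact_mod_cast h
    omega
  · by_cases h2 : α ∈ face f.support κ
    · exact h1 (B.mem_Pf.2 ⟨h2, r, hr, h⟩)
    · rw [B.m_zero α h2] at h
      have : (0 : ℤ) = r := by exact_mod_cast h
      omega

theorem exists_ph (α : σ →₀ ℕ) : ∃ φ : ℤ → B.E, α ∈ f.support → φ (B.b0 α) = 1 ∧
    (∀ t : ℤ, φ (t + 1) = (B.th α - (t : B.E)) * φ t) ∧ ∀ t, t ≤ B.b0 α → IsUnit (φ t) := by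
  by_cases hα : α ∈ f.support
  · obtain ⟨φ, h⟩ := exists_gam (B.th α) (B.b0 α) fun r hr => B.th_unit α hα r (B.m_ne α hα r hr)
    exact ⟨φ, fun _ => h⟩
  · exact ⟨0, fun h => absurd h hα⟩

/-- the Gamma sequences -/
noncomputable def ph (α : σ →₀ ℕ) : ℤ → B.E := (B.exists_ph α).choose

theorem ph_base {α : σ →₀ ℕ} (hα : α ∈ f.support) : B.ph α (B.b0 α) = 1 :=
  ((B.exists_ph α).choose_spec hα).1

theorem ph_succ (α : σ →₀ ℕ) (hα : α ∈ f.support) (t : ℤ) :
    B.ph α (t + 1) = (B.th α - (t : B.E)) * B.ph α t :=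
  ((B.exists_ph α).choose_spec hα).2.1 t

theorem Pf_sub {α : σ →₀ ℕ} (h : α ∈ B.Pf) : α ∈ f.support := (B.mem_Pf.1 h).1.1

theorem Pf_not_Hf {α : σ →₀ ℕ} (h : α ∈ B.Pf) : α ∉ B.Hf := fun h' =>
  (B.mem_Hf.1 h').2 (B.mem_Pf.1 h).1

theorem th_Pf (i : B.Pf) : B.th i - ((B.nn i : ℤ) : B.E) = - lin B.lW B.gW (B.lW i) := by
  unfold th mu
  rw [dif_neg (B.Pf_not_Hf i.2), B.nn_eq i, map_intCast, add_sub_cancel_left]
  rfl

theorem th_Hf (β : B.Hf) : B.th β = B.Xr (Sum.inr β) := by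
  unfold th mu
  rw [dif_pos β.2, B.m_zero _ (B.mem_Hf.1 β.2).2, map_zero, zero_add]

/-- the resonant monomials with small index -/
noncomputable def Dt (t : f.support → ℤ) : Finset B.Pf :=
  Finset.univ.filter fun i => t ⟨i, B.Pf_sub i.2⟩ ≤ B.nn i

/-- the monomials outside the facet with positive index -/
noncomputable def Ht (t : f.support → ℤ) : Finset B.Hf :=
  Finset.univ.filter fun β => 0 < t ⟨β, (B.mem_Hf.1 β.2).1⟩

theorem dvd_cf (t : f.support → ℤ) :
    (∏ β ∈ B.Ht t, B.Xr (Sum.inr β)) *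
      ∏ i ∈ Finset.univ.filter (fun i => i ∉ B.Dt t), lin B.lW B.gW (B.lW i)
      ∣ cf f B.ph t := by
  let s : Finset (B.Hf ⊕ B.Pf) :=
    (B.Ht t).disjSum (Finset.univ.filter fun i => i ∉ B.Dt t)
  let e : B.Hf ⊕ B.Pf → f.support := fun z => match z with
    | Sum.inl β => ⟨β, (B.mem_Hf.1 β.2).1⟩
    | Sum.inr i => ⟨i, B.Pf_sub i.2⟩
  let x : B.Hf ⊕ B.Pf → B.E := fun z => match z with
    | Sum.inl β => B.Xr (Sum.inr β)
    | Sum.inr i => lin B.lW B.gW (B.lW i)
  have he : Function.Injective e := by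
    rintro (β | i) (β' | i') h
    · have := congrArg Subtype.val h
      exact congrArg Sum.inl (Subtype.ext this)
    · have := congrArg Subtype.val h
      exact absurd β.2 (by
        have h2 : (β : σ →₀ ℕ) = i' := this
        rw [h2]; exact B.Pf_not_Hf i'.2)
    · have := congrArg Subtype.val h
      exact absurd β'.2 (by
        have h2 : (i : σ →₀ ℕ) = β' := this
        rw [← h2]; exact B.Pf_not_Hf i.2)
    · have := congrArg Subtype.val h
      exact congrArg Sum.inr (Subtype.ext this)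
  have h1 : ∏ z ∈ s, x z = (∏ β ∈ B.Ht t, B.Xr (Sum.inr β)) *
      ∏ i ∈ Finset.univ.filter (fun i => i ∉ B.Dt t), lin B.lW B.gW (B.lW i) :=
    Finset.prod_disjSum _ _ _
  rw [← h1]
  have h2 : ∀ z ∈ s, x z ∣ B.ph (e z) (t (e z)) *
      algebraMap ℂ B.E ((coeff (e z : σ →₀ ℕ) f) ^ (- t (e z))) := by
    intro z hz
    refine dvd_mul_of_dvd_left ?_ _
    rcases z with β | i
    · have h3 := Finset.inl_mem_disjSum.1 hz
      have h4 : 0 < t (e (Sum.inl β)) := (Finset.mem_filter.1 h3).2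
      have h5 := gam_dvd (B.ph_succ (e (Sum.inl β)) (e (Sum.inl β)).2) h4
      rw [Int.cast_zero, sub_zero] at h5
      have h6 : B.th (e (Sum.inl β)) = B.Xr (Sum.inr β) := B.th_Hf β
      rw [h6] at h5
      exact h5
    · have h3 := (Finset.mem_filter.1 (Finset.inr_mem_disjSum.1 hz)).2
      have h4 : B.nn i < t (e (Sum.inr i)) := by
        by_contra h5
        exact h3 (Finset.mem_filter.2 ⟨Finset.mem_univ _, not_lt.1 h5⟩)
      have h5 := gam_dvd (B.ph_succ (e (Sum.inr i)) (e (Sum.inr i)).2) h4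
      have h6 : B.th (e (Sum.inr i)) - ((B.nn i : ℤ) : B.E) = - lin B.lW B.gW (B.lW i) :=
        B.th_Pf i
      rw [h6] at h5
      obtain ⟨r, hr⟩ := h5
      refine ⟨-r, ?_⟩
      rw [hr]
      show - lin B.lW B.gW (B.lW i) * r = lin B.lW B.gW (B.lW i) * -r
      ring
  refine (Finset.prod_dvd_prod_of_dvd _ _ h2).trans ?_
  rw [← Finset.prod_image (s := s) (g := e) (f := fun α : f.support => B.ph α (t α) *
      algebraMap ℂ B.E ((coeff (α : σ →₀ ℕ) f) ^ (- t α))) (fun a _ b _ h => he h)]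
  exact Finset.prod_dvd_prod_of_subset _ _ _ (Finset.subset_univ _)

/-- nonvanishing terms belong to faces -/
theorem face_of_ne {t : f.support → ℤ} {A : Finset B.Jf}
    (h : (∏ j ∈ A, B.Xr (Sum.inl j)) * cf f B.ph t ≠ 0) :
    IsFace B.lW B.gW (B.Dt t) (A.disjSum (B.Ht t)) := by
  by_contra hn
  apply h
  have h1 : (∏ ρ ∈ A.disjSum (B.Ht t), B.Xr ρ) *
      ∏ i ∈ Finset.univ.filter (fun i => i ∉ B.Dt t), lin B.lW B.gW (B.lW i) = 0 :=
    nonface_zero B.lW B.gW hn (fun i => by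
      rw [Finset.mem_filter]
      exact ⟨fun h => h.2, fun h => ⟨Finset.mem_univ _, h⟩⟩)
  rw [Finset.prod_disjSum] at h1
  obtain ⟨r, hr⟩ := B.dvd_cf t
  rw [hr]
  have h3 : ∀ a b c : B.E, a * b * c = 0 → a * (b * c * r) = 0 := by
    intro a b c hh
    have : a * (b * c * r) = (a * b * c) * r := by ring
    rw [this, hh, zero_mul]
  exact h3 _ _ _ h1

/-- signs -/
theorem sign {t : f.support → ℤ} {A : Finset B.Jf} {c : B.Pf → ℝ}
    (h : B.Fc (B.Dt t) A (B.Ht t) c) (α : f.support) : (t α : ℝ) * B.ee c α ≤ 0 := by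
  obtain ⟨h1, h2, h3, h4, h5, h6⟩ := h
  by_cases hf : (α : σ →₀ ℕ) ∈ face f.support κ
  · by_cases hp : (α : σ →₀ ℕ) ∈ B.Pf
    · have h7 := B.ee_Pf c ⟨α, hp⟩
      have h7' : B.ee c α = c ⟨α, hp⟩ := h7
      rw [h7']
      by_cases h8 : (⟨α, hp⟩ : B.Pf) ∈ B.Dt t
      · have h9 : t α ≤ B.nn ⟨α, hp⟩ := (Finset.mem_filter.1 h8).2
        have h10 := B.nn_neg ⟨α, hp⟩
        have h11 : (t α : ℝ) ≤ 0 := by
          have : t α ≤ 0 := by omega
          exact_mod_cast this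
        exact mul_nonpos_of_nonpos_of_nonneg h11 (h1 _)
      · rw [h2 _ h8, mul_zero]
    · rw [B.ee_face_not c hf hp, mul_zero]
  · have hH : (α : σ →₀ ℕ) ∈ B.Hf := B.mem_Hf.2 ⟨α.2, hf⟩
    by_cases h8 : (⟨α, hH⟩ : B.Hf) ∈ B.Ht t
    · have := h6 _ h8
      have h7 : B.ee c α = 0 := this
      rw [h7, mul_zero]
    · have h9 : t α ≤ 0 := by
        by_contra h10
        exact h8 (Finset.mem_filter.2 ⟨Finset.mem_univ _, not_le.1 h10⟩)
      have h11 : (t α : ℝ) ≤ 0 := by exact_mod_cast h9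
      exact mul_nonpos_of_nonpos_of_nonneg h11 (h4 α α.2)

theorem finite_of {c : B.Pf → ℝ} (hu : ∀ j, 0 ≤ B.uu c j) (he : ∀ α ∈ f.support, 0 ≤ B.ee c α)
    (l : ℤ) (w : σ → ℤ) :
    {t | t ∈ idx f l w ∧ ∀ α : f.support, (t α : ℝ) * B.ee c α ≤ 0}.Finite := by
  set K : ℝ := B.N * l - ∑ j, B.uu c j * (w j : ℝ) with hK
  let tr : (f.support → ℤ) → (f.support → ℤ) := fun t α => if 0 < B.ee c α then t α else 0
  have h1 : (tr '' {t | t ∈ idx f l w ∧ ∀ α : f.support, (t α : ℝ) * B.ee c α ≤ 0}).Finite := by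
    refine (Set.Finite.pi (t := fun α : f.support =>
      Set.Icc (-⌈|K| / B.ee c α⌉) 0) fun α => Set.finite_Icc _ _).subset ?_
    rintro _ ⟨t, ⟨ht, hs⟩, rfl⟩ α _
    have hb : (0 : ℤ) ≤ ⌈|K| / B.ee c α⌉ := by
      apply Int.ceil_nonneg
      exact div_nonneg (abs_nonneg _) (he α α.2)
    show (if 0 < B.ee c α then t α else 0) ∈ Set.Icc (-⌈|K| / B.ee c α⌉) 0
    split_ifs with h2
    · have h3 := B.key c ht.1 ht.2
      have h4 : ∑ α : f.support, -((t α : ℝ) * B.ee c α) = K := by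
        rw [Finset.sum_neg_distrib, hK, h3]
        ring
      have h5 : -((t α : ℝ) * B.ee c α) ≤ K := by
        rw [← h4]
        exact Finset.single_le_sum (f := fun α : f.support => -((t α : ℝ) * B.ee c α))
          (fun β _ => by have := hs β; linarith) (Finset.mem_univ α)
      constructor
      · have h6 : -(t α : ℝ) ≤ |K| / B.ee c α := by
          rw [le_div_iff₀ h2]
          have := le_abs_self K
          linarith
        have h7 : -(t α : ℝ) ≤ (⌈|K| / B.ee c α⌉ : ℝ) := h6.trans (Int.le_ceil _)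
        have h8 : -(t α) ≤ ⌈|K| / B.ee c α⌉ := by exact_mod_cast h7
        omega
      · have h6 := hs α
        have h7 : (t α : ℝ) ≤ 0 := by
          by_contra h8
          have := mul_pos (not_le.1 h8) h2
          linarith
        exact_mod_cast h7
    · exact ⟨by omega, le_rfl⟩
  refine Set.Finite.of_finite_image h1 ?_
  rintro t ⟨ht, -⟩ t' ⟨ht', -⟩ htt'
  have h2 : t - t' = 0 := by
    refine B.indep hu he (t := t - t') (fun j => ?_) fun α hα => ?_
    · simp only [Pi.sub_apply, sub_mul, Finset.sum_sub_distrib]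
      rw [ht.2 j, ht'.2 j, sub_self]
    · have := congrFun htt' α
      have h3 : (if 0 < B.ee c α then t α else 0) = if 0 < B.ee c α then t' α else 0 := this
      rw [if_pos hα, if_pos hα] at h3
      rw [Pi.sub_apply, h3, sub_self]
  exact sub_eq_zero.1 h2

theorem finite_idx (l : ℤ) (w : σ → ℤ) : {t | t ∈ idx f l w ∧ cf f B.ph t ≠ 0}.Finite := by
  have h1 : ∀ DH : Finset B.Pf × Finset B.Hf,
      {t | t ∈ idx f l w ∧ cf f B.ph t ≠ 0 ∧ B.Dt t = DH.1 ∧ B.Ht t = DH.2}.Finite := by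
    rintro ⟨D, H⟩
    by_cases hF : IsFace B.lW B.gW D ((∅ : Finset B.Jf).disjSum H)
    · obtain ⟨c, hc⟩ := B.exists_Fc hF
      refine (B.finite_of hc.2.2.1 hc.2.2.2.1 l w).subset ?_
      rintro t ⟨ht, -, rfl, rfl⟩
      exact ⟨ht, B.sign hc⟩
    · refine Set.Finite.subset Set.finite_empty ?_
      rintro t ⟨ht, h2, rfl, rfl⟩
      exact hF (B.face_of_ne (A := ∅) (by rwa [Finset.prod_empty, one_mul]))
  refine (Set.finite_iUnion h1).subset fun t ht => ?_
  exact Set.mem_iUnion.2 ⟨(B.Dt t, B.Ht t), ht.1, ht.2, rfl, rfl⟩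

/-! ### the submodule -/

/-- the variables with negative exponent -/
noncomputable def Aw (w : σ → ℤ) : Finset B.Jf := Finset.univ.filter fun j => w j < 0

/-- the submodule -/
noncomputable def N0 : Submodule B.E ((σ → ℤ) → B.E) where
  carrier := {F | ∀ w, (∏ j ∈ B.Aw w, B.Xr (Sum.inl j)) * F w = 0}
  zero_mem' w := by rw [Pi.zero_apply, mul_zero]
  add_mem' := by
    intro F G hF hG w
    rw [Pi.add_apply, mul_add, hF w, hG w, add_zero]
  smul_mem' := by
    intro c F hF w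
    rw [Pi.smul_apply, smul_eq_mul, mul_left_comm, hF w, mul_zero]

theorem N0_act (j : σ) (F : (σ → ℤ) → B.E) (hF : F ∈ B.N0) : actF σ B.E (X j) F ∈ B.N0 := by
  intro w
  rw [actF_X]
  have h1 : B.Aw (fun i => w i + ((Finsupp.single j 1 : σ →₀ ℕ) i : ℤ)) ⊆ B.Aw w := by
    intro i hi
    have h2 := (Finset.mem_filter.1 hi).2
    refine Finset.mem_filter.2 ⟨Finset.mem_univ _, ?_⟩
    have : (0 : ℤ) ≤ ((Finsupp.single j 1 : σ →₀ ℕ) (i : σ) : ℤ) := Int.natCast_nonneg _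
    simp only at h2
    omega
  obtain ⟨r, hr⟩ := Finset.prod_dvd_prod_of_subset _ _ (fun j => B.Xr (Sum.inl j)) h1
  rw [hr, mul_right_comm]
  have h2 := hF (fun i => w i + ((Finsupp.single j 1 : σ →₀ ℕ) i : ℤ))
  rw [h2, zero_mul]

/-- the exponents of the variables -/
noncomputable def nv (j : σ) : B.E := ∑ α ∈ f.support, B.th α * ((α j : ℕ) : B.E)

theorem Lw_zero {α : σ →₀ ℕ} (hα : α ∉ face f.support κ) : B.Lw α = fun _ => 0 := by
  funext ρ
  rcases ρ with j | β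
  · exact B.lam_zero α hα j
  · show ∑ j, B.lam α j * ((β : σ →₀ ℕ) j : ℚ) = 0
    exact Finset.sum_eq_zero fun j _ => by rw [B.lam_zero α hα j, zero_mul]

theorem sum_Lw (j : B.Jf) (ρ : B.Wl) :
    ∑ α ∈ f.support, B.Lw α ρ * ((α j : ℕ) : ℚ)
      = (if ρ = Sum.inl j then 1 else 0) + ∑ β : B.Hf, if ρ = Sum.inr β then
        (((β : σ →₀ ℕ) j : ℕ) : ℚ) else 0 := by
  have hj := B.mem_Jf.1 j.2
  rcases ρ with i | γ
  · have h1 : ∑ β : B.Hf, (if (Sum.inl i : B.Wl) = Sum.inr β then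
        (((β : σ →₀ ℕ) j : ℕ) : ℚ) else 0) = 0 :=
      Finset.sum_eq_zero fun β _ => if_neg (fun h => by cases h)
    rw [h1, add_zero]
    show ∑ α ∈ f.support, B.lam α i * ((α j : ℕ) : ℚ) = _
    by_cases hij : i = j
    · subst hij
      rw [if_pos rfl]
      exact B.sec1 i hj
    · rw [if_neg (fun h => hij (Sum.inl_injective h))]
      exact B.sec2 i j (B.mem_Jf.1 i.2) hj fun h => hij (Subtype.ext h)
  · rw [if_neg (fun h => by cases h), zero_add, Finset.sum_eq_single γ]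
    · rw [if_pos rfl]
      show ∑ α ∈ f.support, (∑ i, B.lam α i * ((γ : σ →₀ ℕ) i : ℚ)) * ((α j : ℕ) : ℚ) = _
      simp_rw [Finset.sum_mul]
      rw [Finset.sum_comm, Finset.sum_eq_single (j : σ)]
      · have h2 : ∀ α ∈ f.support, B.lam α j * (((γ : σ →₀ ℕ) j : ℕ) : ℚ) * ((α j : ℕ) : ℚ)
            = (((γ : σ →₀ ℕ) j : ℕ) : ℚ) * (B.lam α j * ((α j : ℕ) : ℚ)) := fun α _ => by ring
        rw [Finset.sum_congr rfl h2, ← Finset.mul_sum, B.sec1 j hj, mul_one]
      · intro i _ hi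
        have h2 : ∀ α ∈ f.support, B.lam α i * (((γ : σ →₀ ℕ) i : ℕ) : ℚ) * ((α j : ℕ) : ℚ)
            = (((γ : σ →₀ ℕ) i : ℕ) : ℚ) * (B.lam α i * ((α j : ℕ) : ℚ)) := fun α _ => by ring
        rw [Finset.sum_congr rfl h2, ← Finset.mul_sum]
        by_cases hi' : κ i = 0
        · rw [Finset.sum_eq_zero fun α _ => by rw [B.lamJ α i hi', zero_mul], mul_zero]
        · rw [B.sec2 i j hi' hj hi, mul_zero]
      · intro h; exact absurd (Finset.mem_univ _) h
    · intro β _ hβ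
      rw [if_neg]
      intro h
      exact hβ (Sum.inr_injective h).symm
    · intro h; exact absurd (Finset.mem_univ _) h

theorem sum_lin (j : B.Jf) :
    ∑ α ∈ f.support, lin B.lW B.gW (B.Lw α) * ((α j : ℕ) : B.E)
      = B.Xr (Sum.inl j) + ∑ β : B.Hf, B.Xr (Sum.inr β) * ((((β : σ →₀ ℕ) j : ℕ)) : B.E) := by
  have h1 : ∀ α ∈ f.support, lin B.lW B.gW (B.Lw α) * ((α j : ℕ) : B.E)
      = lin B.lW B.gW (fun ρ => B.Lw α ρ * ((α j : ℕ) : ℚ)) := fun α _ =>
    (lin_nsmul _ _ _ _).symm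
  rw [Finset.sum_congr rfl h1, ← lin_sum]
  simp_rw [B.sum_Lw j]
  unfold lin
  have h2 : ∀ ρ : B.Wl, algebraMap ℂ (NF' B.lW B.gW)
        (((((if ρ = Sum.inl j then 1 else 0) + ∑ β : B.Hf, if ρ = Sum.inr β then
        (((β : σ →₀ ℕ) j : ℕ) : ℚ) else 0 : ℚ)) : ℚ) : ℂ) * Xv B.lW B.gW ρ
      = (if ρ = Sum.inl j then B.Xr (Sum.inl j) else 0) + ∑ β : B.Hf, if ρ = Sum.inr β then
        B.Xr (Sum.inr β) * ((((β : σ →₀ ℕ) j : ℕ)) : B.E) else 0 := by
    intro ρ
    rw [Rat.cast_add, Rat.cast_sum, map_add, map_sum, add_mul, Finset.sum_mul]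
    congr 1
    · split_ifs with h
      · rw [h, Rat.cast_one, map_one, one_mul]
        rfl
      · rw [Rat.cast_zero, map_zero, zero_mul]
    · refine Finset.sum_congr rfl fun β _ => ?_
      split_ifs with h
      · rw [h, Rat.cast_natCast, map_natCast, mul_comm]
        rfl
      · rw [Rat.cast_zero, map_zero, zero_mul]
  rw [Finset.sum_congr rfl fun ρ _ => h2 ρ, Finset.sum_add_distrib]
  congr 1
  · rw [Finset.sum_ite_eq' Finset.univ (Sum.inl j : B.Wl) (fun _ => B.Xr (Sum.inl j)),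
      if_pos (Finset.mem_univ _)]
  · rw [Finset.sum_comm]
    refine Finset.sum_congr rfl fun β _ => ?_
    rw [Finset.sum_ite_eq' Finset.univ (Sum.inr β : B.Wl)
      (fun _ => B.Xr (Sum.inr β) * ((((β : σ →₀ ℕ) j : ℕ)) : B.E)), if_pos (Finset.mem_univ _)]

theorem nv_eq (j : B.Jf) : B.nv j = -1 - B.Xr (Sum.inl j) := by
  unfold nv th
  simp_rw [add_mul, Finset.sum_add_distrib]
  have h1 : ∑ α ∈ f.support, algebraMap ℂ B.E (B.m α) * ((α j : ℕ) : B.E) = -1 := by
    have h2 : ∀ α ∈ f.support, algebraMap ℂ B.E (B.m α) * ((α j : ℕ) : B.E)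
        = algebraMap ℂ B.E (B.m α * (α j : ℂ)) := fun α _ => by rw [map_mul, map_natCast]
    rw [Finset.sum_congr rfl h2, ← map_sum, B.sum_m j (B.mem_Jf.1 j.2), map_neg, map_one]
  have h3 : ∀ α ∈ f.support, B.mu α * ((α j : ℕ) : B.E)
      = (if h : α ∈ B.Hf then B.Xr (Sum.inr ⟨α, h⟩) * ((α j : ℕ) : B.E) else 0)
        - lin B.lW B.gW (B.Lw α) * ((α j : ℕ) : B.E) := by
    intro α hα
    unfold mu
    split_ifs with h
    · rw [B.Lw_zero (B.mem_Hf.1 h).2, lin_zero, zero_mul, sub_zero]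
    · rw [zero_sub, neg_mul]
  rw [h1, Finset.sum_congr rfl h3, Finset.sum_sub_distrib, B.sum_lin j]
  have h4 : ∑ α ∈ f.support, (if h : α ∈ B.Hf then B.Xr (Sum.inr ⟨α, h⟩) * ((α j : ℕ) : B.E)
      else 0) = ∑ β : B.Hf, B.Xr (Sum.inr β) * ((((β : σ →₀ ℕ) j : ℕ)) : B.E) := by
    symm
    refine Finset.sum_bij_ne_zero (fun β _ _ => (β : σ →₀ ℕ)) (fun β _ _ => (B.mem_Hf.1 β.2).1)
      (fun β _ _ γ _ _ h => Subtype.ext h) ?_ ?_
    · intro α hα hne
      by_cases h : α ∈ B.Hf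
      · rw [dif_pos h] at hne
        exact ⟨⟨α, h⟩, Finset.mem_univ _, hne, rfl⟩
      · rw [dif_neg h] at hne
        exact absurd rfl hne
    · intro β _ _
      rw [dif_pos β.2]
  rw [h4]
  ring

theorem N0_d (j : σ) (F : (σ → ℤ) → B.E) (hF : F ∈ B.N0) : dF B.nv j F ∈ B.N0 := by
  intro w
  rw [dF_apply]
  set w' : σ → ℤ := fun i => w i - ((Finsupp.single j 1 : σ →₀ ℕ) i : ℤ) with hw'
  have hF' := hF w'
  have hne : ∀ i : σ, i ≠ j → w' i = w i := by
    intro i hi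
    show w i - ((Finsupp.single j 1 : σ →₀ ℕ) i : ℤ) = w i
    rw [Finsupp.single_eq_of_ne hi]
    simp
  have hj' : w' j = w j - 1 := by
    show w j - ((Finsupp.single j 1 : σ →₀ ℕ) j : ℤ) = w j - 1
    rw [Finsupp.single_eq_same]
    rfl
  by_cases hcase : j ∈ B.Jf ∧ w j = 0
  · obtain ⟨hj, hwj⟩ := hcase
    have h1 : B.nv j = -1 - B.Xr (Sum.inl ⟨j, hj⟩) := B.nv_eq ⟨j, hj⟩
    have h2 : (⟨j, hj⟩ : B.Jf) ∉ B.Aw w := by
      intro h
      have := (Finset.mem_filter.1 h).2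
      simp only at this
      omega
    have h3 : B.Aw w' = insert (⟨j, hj⟩ : B.Jf) (B.Aw w) := by
      ext i
      unfold Aw
      rw [Finset.mem_insert, Finset.mem_filter, Finset.mem_filter]
      by_cases hi : i = ⟨j, hj⟩
      · subst hi
        simp only [Finset.mem_univ, true_and, true_or, iff_true]
        rw [hj']
        omega
      · have : (i : σ) ≠ j := fun h => hi (Subtype.ext h)
        rw [hne i this]
        simp [hi]
    rw [h3, Finset.prod_insert h2] at hF'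
    rw [h1, hwj]
    push_cast
    linear_combination -hF'
  · have h1 : B.Aw w' = B.Aw w := by
      ext i
      unfold Aw
      rw [Finset.mem_filter, Finset.mem_filter]
      by_cases hi : (i : σ) = j
      · have h2 : w j ≠ 0 := fun h => hcase ⟨hi ▸ i.2, h⟩
        rw [hi, hj']
        constructor
        · rintro ⟨h3, h4⟩; exact ⟨h3, by omega⟩
        · rintro ⟨h3, h4⟩; exact ⟨h3, by omega⟩
      · rw [hne i hi]
    rw [← h1, mul_left_comm, hF', mul_zero]

/-! ### the chain -/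

/-- the total exponent is `s₀` plus a nilpotent element -/
theorem sum_th : ∃ ν : B.E, IsNilpotent ν ∧
    ∑ α ∈ f.support, B.th α = algebraMap ℂ B.E (∑ α ∈ f.support, B.m α) + ν := by
  refine ⟨∑ α ∈ f.support, B.mu α, ?_, ?_⟩
  · rw [← mem_nilradical]
    exact Ideal.sum_mem _ fun α _ => mem_nilradical.2 (B.mu_nil α)
  · unfold th
    rw [Finset.sum_add_distrib, map_sum]

theorem sum_m_eq : (B.N : ℂ) * ∑ α ∈ f.support, B.m α = -((∑ j, κ j : ℕ) : ℂ) := by
  have h1 : ∑ j, (κ j : ℂ) * ∑ α ∈ f.support, B.m α * (α j : ℂ) = -((∑ j, κ j : ℕ) : ℂ) := by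
    push_cast
    rw [← Finset.sum_neg_distrib]
    refine Finset.sum_congr rfl fun j _ => ?_
    by_cases hj : κ j = 0
    · rw [hj]; simp
    · rw [B.sum_m j hj]; ring
  rw [← h1]
  simp_rw [Finset.mul_sum]
  rw [Finset.sum_comm]
  refine Finset.sum_congr rfl fun α hα => ?_
  by_cases hf : α ∈ face f.support κ
  · have h2 := ((B.face_iff α).1 hf).2
    rw [← h2]
    unfold dot
    push_cast
    rw [Finset.sum_mul]
    refine Finset.sum_congr rfl fun j _ => ?_
    ring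
  · rw [B.m_zero α hf, mul_zero]
    symm
    exact Finset.sum_eq_zero fun j _ => by ring

theorem N_ne : (B.N : ℂ) ≠ 0 := by
  have := B.hN
  exact_mod_cast this.ne'

theorem s0_ne (hκ : ∃ j, κ j ≠ 0) (l : ℕ) : ∑ α ∈ f.support, B.m α ≠ (l : ℂ) := by
  intro h
  have h1 := B.sum_m_eq
  rw [h] at h1
  have h2 : ((B.N * l + ∑ j, κ j : ℕ) : ℂ) = 0 := by
    push_cast at h1 ⊢
    rw [h1]
    ring
  have h3 : B.N * l + ∑ j, κ j = 0 := by exact_mod_cast h2
  obtain ⟨j, hj⟩ := hκ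
  have h4 : κ j ≤ ∑ j, κ j := Finset.single_le_sum (fun _ _ => Nat.zero_le _) (Finset.mem_univ j)
  omega

theorem psi_neg_mem : psiF f B.ph (-1) ∈ B.N0 := by
  intro w
  unfold psiF
  rw [← ws_mul _ (B.finite_idx _ _)]
  have h1 : ws f (fun t => (∏ j ∈ B.Aw w, B.Xr (Sum.inl j)) * cf f B.ph t) (-1) w
      = ws f (fun _ => (0 : B.E)) (-1) w := by
    refine ws_congr fun t ht => ?_
    by_contra hne
    obtain ⟨c, hc⟩ := B.exists_Fc (B.face_of_ne hne)
    have h2 := B.key c ht.1 ht.2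
    have h3 : ∑ α : f.support, (t α : ℝ) * B.ee c α ≤ 0 :=
      Finset.sum_nonpos fun α _ => B.sign hc α
    have h4 : 0 ≤ ∑ j, B.uu c j * (w j : ℝ) := by
      refine Finset.sum_nonneg fun j _ => ?_
      by_cases hj : κ j = 0
      · rw [B.uu_J c hj, zero_mul]
      · by_cases hw : w j < 0
        · have := hc.2.2.2.2.1 ⟨j, B.mem_Jf.2 hj⟩ (Finset.mem_filter.2 ⟨Finset.mem_univ _, hw⟩)
          have h5 : B.uu c j = 0 := this
          rw [h5, zero_mul]
        · exact mul_nonneg (hc.2.2.1 j) (by exact_mod_cast not_lt.1 hw)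
    have h5 : (0 : ℝ) < B.N := by exact_mod_cast B.hN
    push_cast at h2
    linarith
  rw [h1, ws_zero]

theorem cf_zero_of {t : f.support → ℤ} (ht : t ∈ idx f 0 0) (hne : cf f B.ph t ≠ 0) : t = 0 := by
  obtain ⟨c, hc⟩ := B.exists_Fc (B.face_of_ne (A := ∅) (t := t)
    (by rwa [Finset.prod_empty, one_mul]))
  have h2 := B.key c ht.1 ht.2
  simp only [Pi.zero_apply, Int.cast_zero, mul_zero, Finset.sum_const_zero, zero_add] at h2
  have h3 := (Finset.sum_eq_zero_iff_of_nonpos (fun α _ => B.sign hc α)).1 h2.symm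
  -- all parameters vanish
  have hc0 : ∀ i, c i = 0 := by
    intro i
    by_contra hi
    have h4 := h3 ⟨i, B.Pf_sub i.2⟩ (Finset.mem_univ _)
    have h5 : B.ee c i = c i := B.ee_Pf c i
    have h4' : (t ⟨i, B.Pf_sub i.2⟩ : ℝ) * B.ee c i = 0 := h4
    rw [h5] at h4'
    rcases mul_eq_zero.1 h4' with h6 | h6
    · have h7 : i ∈ B.Dt t := by
        by_contra h8
        exact hi (hc.2.1 i h8)
      have h8 : t ⟨i, B.Pf_sub i.2⟩ ≤ B.nn i := (Finset.mem_filter.1 h7).2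
      have h9 := B.nn_neg i
      have h10 : t ⟨i, B.Pf_sub i.2⟩ = 0 := by exact_mod_cast h6
      omega
    · exact hi h6
  refine B.indep hc.2.2.1 hc.2.2.2.1 (fun j => ht.2 j) fun α hα => ?_
  have h4 := h3 α (Finset.mem_univ _)
  rcases mul_eq_zero.1 h4 with h6 | h6
  · exact_mod_cast h6
  · exact absurd h6 hα.ne'

theorem cf_zero_eq : ∃ u : B.E, IsUnit u ∧ cf f B.ph 0 = u * ∏ i, lin B.lW B.gW (B.lW i) := by
  have h1 : cf f B.ph 0 = ∏ α : f.support, B.ph α 0 := by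
    unfold cf
    refine Finset.prod_congr rfl fun α _ => ?_
    simp
  have h2 : ∀ α : f.support, ∃ u : B.E, IsUnit u ∧ B.ph α 0
      = u * if h : (α : σ →₀ ℕ) ∈ B.Pf then lin B.lW B.gW (B.lW ⟨α, h⟩) else 1 := by
    intro α
    by_cases h : (α : σ →₀ ℕ) ∈ B.Pf
    · have hb : B.b0 α = B.nn ⟨α, h⟩ := dif_pos h
      obtain ⟨u, hu1, hu2⟩ := gam_assoc (B.ph_succ α α.2) (B.ph_base α.2) (t := 0)
        (by rw [hb]; exact B.nn_neg _) (fun r hr hr' => B.th_unit α α.2 r (by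
          rw [B.nn_eq ⟨α, h⟩]
          intro h9
          have : B.nn ⟨α, h⟩ = r := by exact_mod_cast h9
          rw [hb] at hr
          omega))
      refine ⟨-u, hu1.neg, ?_⟩
      rw [hu2, dif_pos h, hb]
      have h3 : B.th α - ((B.nn ⟨α, h⟩ : ℤ) : B.E) = - lin B.lW B.gW (B.lW ⟨α, h⟩) :=
        B.th_Pf ⟨α, h⟩
      rw [h3]
      ring
    · have hb : B.b0 α = 0 := dif_neg h
      have := B.ph_base α.2
      rw [hb] at this
      exact ⟨1, isUnit_one, by rw [this, dif_neg h, one_mul]⟩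
  choose u hu1 hu2 using h2
  refine ⟨∏ α, u α, ?_, ?_⟩
  · rw [← Units.isUnit_units_mul 1, Units.val_one, one_mul]
    exact IsUnit.prod_univ_iff.2 hu1 
  · rw [h1, Finset.prod_congr rfl fun α _ => hu2 α, Finset.prod_mul_distrib]
    congr 1
    symm
    refine Finset.prod_bij_ne_one (fun i _ _ => (⟨i, B.Pf_sub i.2⟩ : f.support))
      (fun i _ _ => Finset.mem_univ _) (fun i _ _ j _ _ h => Subtype.ext
        (congrArg (fun x : f.support => (x : σ →₀ ℕ)) h)) ?_ ?_
    · intro α _ hne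
      by_cases h : (α : σ →₀ ℕ) ∈ B.Pf
      · rw [dif_pos h] at hne
        exact ⟨⟨α, h⟩, Finset.mem_univ _, hne, rfl⟩
      · rw [dif_neg h] at hne
        exact absurd rfl hne
    · intro i _ _
      rw [dif_pos i.2]

theorem psi_zero (hA : AlgStmt) : psiF f B.ph 0 0 ≠ 0 := by
  have h1 : psiF f B.ph 0 0 = cf f B.ph 0 := by
    unfold psiF ws
    rw [finsum_eq_single _ (0 : f.support → ℤ)]
    · rw [if_pos]
      unfold idx
      exact ⟨by simp, fun j => by simp⟩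
    · intro t ht
      split_ifs with h2
      · by_contra h3
        exact ht (B.cf_zero_of h2 h3)
      · rfl
  obtain ⟨u, hu, h2⟩ := B.cf_zero_eq
  rw [h1, h2]
  intro h3
  exact vertex_ne B.lW B.gW hA B.gW_pos B.bounded ((hu.mul_right_eq_zero).1 h3)

/-- every Bernstein-Sato polynomial vanishes at `s₀` -/
theorem root (hE : ERootStmt) (hA : AlgStmt) (hκ : ∃ j, κ j ≠ 0) (b : Polynomial ℂ)
    (hb : LocalBS f b) : b.eval (∑ α ∈ f.support, B.m α) = 0 := by
  by_contra hne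
  obtain ⟨ν, hν, hs⟩ := B.sum_th
  set s₀ : ℂ := ∑ α ∈ f.support, B.m α with hs₀
  have h1 := chain_root hE (f := f) (θ := B.th) (φ := B.ph) (fun α hα t => B.ph_succ α hα t)
    B.finite_idx (fun l => by
      rw [hs]
      have h2 : algebraMap ℂ B.E s₀ + ν - (l : B.E) = algebraMap ℂ B.E (s₀ - l) + ν := by
        rw [map_sub, map_natCast]; ring
      rw [h2]
      exact isUnit_alg_add (sub_ne_zero.2 (B.s0_ne hκ l)) hν)
    (n := B.nv) (fun j => rfl) B.N0 B.N0_act B.N0_d B.psi_neg_mem b hb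
  -- the value of `b` is a unit
  have h2 : IsUnit (Polynomial.aeval (∑ α ∈ f.support, B.th α) b) := by
    have h3 := Polynomial.sub_dvd_eval_sub (algebraMap ℂ B.E s₀ + ν) (algebraMap ℂ B.E s₀)
      (b.map (algebraMap ℂ B.E))
    rw [add_sub_cancel_left, Polynomial.eval_map_algebraMap, Polynomial.eval_map_algebraMap,
      Polynomial.aeval_algebraMap_apply, Polynomial.coe_aeval_eq_eval] at h3
    obtain ⟨r, hr⟩ := h3
    rw [hs]
    have h4 : Polynomial.aeval (algebraMap ℂ B.E s₀ + ν) b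
        = algebraMap ℂ B.E (b.eval s₀) + ν * r := by
      rw [← hr]; ring
    rw [h4]
    exact isUnit_alg_add hne (Commute.isNilpotent_mul_right (Commute.all _ _) hν)
  obtain ⟨v, hv⟩ := h2.exists_left_inv
  have h3 := B.N0.smul_mem v h1
  rw [smul_smul, hv, one_smul] at h3
  have h4 := h3 0
  have h5 : B.Aw 0 = ∅ := by
    unfold Aw
    rw [Finset.filter_eq_empty_iff]
    intro j _
    simp
  rw [h5, Finset.prod_empty, one_mul] at h4
  exact B.psi_zero hA h4

end BD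

/-- **roots of the Bernstein-Sato polynomial from facets** -/
theorem core (hE : ERootStmt) (hA : AlgStmt) (hD : BDataStmt) : CoreStmt := by
  intro σ _ f κ hS hF hB α hα
  obtain ⟨B, hBN⟩ := BData_BD hD hS hF hB hα
  have hκ : ∃ j, κ j ≠ 0 := by
    by_contra h
    push Not at h
    have h1 := hF.1 α hα.1
    unfold dot at h1
    rw [Finset.sum_eq_zero fun j _ => by rw [h j, Nat.cast_id, zero_mul]] at h1
    exact lt_irrefl _ h1
  have hs : ∑ α ∈ f.support, B.m α = -(((∑ i, κ i : ℕ) : ℂ) / (dot κ α : ℕ)) := by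
    rw [← hBN, ← neg_div, eq_div_iff B.N_ne, mul_comm]
    exact B.sum_m_eq
  have hI : Ideal.span {b | LocalBS f b} ≤
      RingHom.ker (Polynomial.evalRingHom (-(((∑ i, κ i : ℕ) : ℂ) / (dot κ α : ℕ)))) := by
    rw [Ideal.span_le]
    intro b hb
    rw [SetLike.mem_coe, RingHom.mem_ker, Polynomial.coe_evalRingHom, ← hs]
    exact B.root hE hA hκ b hb
  have h3 := hI (Submodule.IsPrincipal.generator_mem (Ideal.span {b | LocalBS f b}))
  rw [RingHom.mem_ker, Polynomial.coe_evalRingHom] at h3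
  rw [bfun, normalize_apply, Polynomial.eval_mul, h3, zero_mul]

end Pool.Agent.Helper30_Simp
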