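import Pool.Agent.Helper6_Mono.GDefs

/-!
# Simplicial Newton-nondegenerate polynomials

Public definitions used in the statement of the theorem.
-/

set_option autoImplicit false

namespace Pool.Agent.Helper30_Simp

open MvPolynomial

variable {σ : Type} [Fintype σ]

/-- the value `u · α` of the weight vector `u` at the exponent vector `α` -/
def dot {R : Type} [Semiring R] (u : σ → R) (α : σ →₀ ℕ) : R := ∑ i, u i * (α i : R)

/-- the exponent vectors in `M` on which the weight vector `u` is minimal: the exponents of the
initial form `in_u f` if `M` is the support of `f` -/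
def face {R : Type} [Semiring R] [LE R] (M : Finset (σ →₀ ℕ)) (u : σ → R) : Set (σ →₀ ℕ) :=
  {α | α ∈ M ∧ ∀ β ∈ M, dot u α ≤ dot u β}

/-- for every weight vector `u ≥ 0` which is positive on `M` the exponent vectors in `M` on which
`u` is minimal are linearly independent -/
def Simplicial (M : Finset (σ →₀ ℕ)) : Prop :=
  ∀ u : σ → ℝ, (∀ i, 0 ≤ u i) → (∀ α ∈ M, 0 < dot u α) →
    LinearIndependent ℝ (fun α : face M u => fun i => ((α : σ →₀ ℕ) i : ℝ))

/-- `κ` is a normal vector of a facet of the Newton polyhedron `conv (M + ℝ_{≥0}^σ)` which does not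
contain the origin in its linear equation: `κ` is positive on `M`, and the exponent vectors in `M`
on which `κ` is minimal span together with the unit vectors `e_i`, `κ i = 0`, the whole space -/
def IsFacet (M : Finset (σ →₀ ℕ)) (κ : σ → ℕ) : Prop :=
  (∀ α ∈ M, 0 < dot κ α) ∧
    Submodule.span ℚ ({v | ∃ α ∈ face M κ, v = fun i => (α i : ℚ)} ∪
      {v : σ → ℚ | ∃ i, κ i = 0 ∧ v i = 1 ∧ ∀ j, j ≠ i → v j = 0}) = ⊤

/-- the facet with normal vector `κ` is a `B₁`-facet: some variable `j` with `κ j ≠ 0` occurs in
exactly one of the monomials of the facet, and there with exponent `1` -/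
def IsB1 (M : Finset (σ →₀ ℕ)) (κ : σ → ℕ) : Prop :=
  ∃ j, κ j ≠ 0 ∧ ∃ α ∈ face M κ, α j = 1 ∧ ∀ β ∈ face M κ, β ≠ α → β j = 0

variable {k : Type} [Field k]

/-- the restriction of `f` to the coordinate subspace `x_i = 0`, `i ∈ A` -/
noncomputable def restr (A : Finset σ) (f : MvPolynomial σ k) : MvPolynomial σ k := by
  classical
  exact aeval (fun i => if i ∈ A then 0 else X i) f

/-- the hypersurface `g = 0` has no singular point in the torus (all coordinates not zero): the
product of the variables lies in the radical of the ideal generated by `g` and its partial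
derivatives -/
def TorusSmooth (g : MvPolynomial σ k) : Prop :=
  ∏ i, X i ∈ (Ideal.span ({g} ∪ Set.range fun j => pderiv j g)).radical

/-- every nonzero restriction of `f` to a coordinate subspace is smooth in the torus -/
def Nondeg (f : MvPolynomial σ k) : Prop := ∀ A : Finset σ, restr A f ≠ 0 → TorusSmooth (restr A f)

end Pool.Agent.Helper30_Simp
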