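import Pool.Agent.Helper30_Simp.Defs

/-!
# The slope of a facet
-/

set_option autoImplicit false

namespace Pool.Agent.Helper30_Simp

variable {σ : Type} [Fintype σ]

/-- `x = |κ| / N(κ)`, where `|κ|` is the sum of the coordinates of `κ` and `N(κ)` is the minimum of
`κ · α` over the exponent vectors `α` in `M` -/
def HasSlope (M : Finset (σ →₀ ℕ)) (κ : σ → ℕ) (x : ℚ) : Prop :=
  ∃ α ∈ face M κ, x = ((∑ i, κ i : ℕ) : ℚ) / (dot κ α : ℕ)

/-- every number different from `1` which is the slope of a facet is also the slope of a facet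
which is not a `B₁`-facet -/
def NonB1Slopes (M : Finset (σ →₀ ℕ)) : Prop :=
  ∀ (κ : σ → ℕ) (x : ℚ), IsFacet M κ → HasSlope M κ x → x ≠ 1 →
    ∃ κ' : σ → ℕ, IsFacet M κ' ∧ ¬ IsB1 M κ' ∧ HasSlope M κ' x

end Pool.Agent.Helper30_Simp
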