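import Pool.Agent.Helper30_Simp.Core4
import Pool.Agent.Helper30_Simp.Slope

/-!
# The equivariant motivic monodromy conjecture for simplicial Newton-nondegenerate polynomials
-/

set_option autoImplicit false
set_option linter.unusedVariables false
set_option linter.unusedSectionVars false

namespace Pool.Agent.Helper30_Simp

open PowerSeries Finset Pool.Agent.Helper6_Mono

theorem slopes_pos {σ : Type} [Fintype σ] {M : Finset (σ →₀ ℕ)} {x : ℚ} (hx : x ∈ slopes M) :
    0 < x := by
  obtain ⟨κ, hκ, α, hα, rfl⟩ := hx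
  have h1 := hκ.1 α hα.1
  have h2 : 0 < ∑ i, κ i := by
    by_contra h
    have h3 : ∑ i, κ i = 0 := by omega
    rw [Finset.sum_eq_zero_iff] at h3
    unfold dot at h1
    rw [Finset.sum_eq_zero fun j _ => by rw [h3 j (Finset.mem_univ _), zero_mul]] at h1
    exact lt_irrefl _ h1
  have h3 : (0 : ℚ) < ((∑ i, κ i : ℕ) : ℚ) := by exact_mod_cast h2
  have h4 : (0 : ℚ) < ((dot κ α : ℕ) : ℚ) := by exact_mod_cast h1
  exact div_pos h3 h4

/-- rationality of the zeta function -/
theorem zeta_rat (hZ : ZfinStmt) {k : Type} [Field k] [CharZero k] {σ : Type} [Fintype σ]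
    {f : MvPolynomial σ k} (hf : f ≠ 0) (hS : Simplicial f.support) (hN : Nondeg f) :
    ∃ P : Finset (ℤ × ℕ), (∀ p ∈ P, p.1 < 0 ∧ 0 < p.2 ∧
      -((p.1 : ℚ) / p.2) ∈ slopes f.support ∪ {1}) ∧ Zf f ∈ zetaRing f P := by
  obtain ⟨χ, hχ⟩ := exists_chi f
  obtain ⟨a, ha0, hRP, ha⟩ := hZ k σ (MM f) (LL f) χ f hf hS hN
  have hz : Zf f = PowerSeries.mk a := by
    ext m
    rw [Zf, PowerSeries.coeff_mk, PowerSeries.coeff_mk]
    unfold zetaCoeff
    split_ifs with hm
    · rw [hm, ha0]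
    · have hω : m • ((((1 : ℚ) / m : ℚ)) : QZ) = 0 := by
        rw [← AddCircle.coe_nsmul, nsmul_eq_mul, mul_one_div_cancel (by exact_mod_cast hm)]
        exact AddCircle.coe_period 1
      have hL : Lpow f (-(m * Nat.card σ)) = ((LL f)⁻¹ : (MM f)ˣ) ^ (m * Nat.card σ) := by
        unfold Lpow
        rw [← Units.val_pow_eq_pow_val, inv_pow, ← zpow_natCast, ← zpow_neg]
        push_cast
        rfl
      rw [hχ m hm hω, hL, mul_comm, ha m hm hω, Nat.card_eq_fintype_card]
  obtain ⟨Dn, hDn, Q, hQ⟩ := hRP.toRG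
  have hpos : ∀ x ∈ slopes f.support ∪ {1}, (0 : ℚ) < x := by
    rintro x (hx | hx)
    · exact slopes_pos hx
    · rw [Set.mem_singleton_iff.1 hx]
      exact one_pos
  obtain ⟨P, hP, E, hE, hE1⟩ := denoms_inv (LL f) hpos hDn
  refine ⟨P, hP, ?_⟩
  have e1 : Zf f = E * (Q : PowerSeries (MM f)) := by
    rw [← hQ, ← mul_assoc, hE1, one_mul, hz]
  rw [e1]
  have hgen : ({PowerSeries.X} ∪ {x : PowerSeries (MM f) | ∃ p ∈ P,
        x * (1 - PowerSeries.C ((LL f ^ p.1 : (MM f)ˣ) : MM f) * PowerSeries.X ^ p.2) = 1})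
      = gens f P := rfl
  rw [hgen] at hE
  show E * (Q : PowerSeries (MM f)) ∈ Algebra.adjoin (MM f) (gens f P)
  refine mul_mem hE ?_
  have hX : (PowerSeries.X : PowerSeries (MM f)) ∈ Algebra.adjoin (MM f) (gens f P) :=
    Algebra.subset_adjoin (Or.inl rfl)
  clear hQ e1
  induction Q using Polynomial.induction_on' with
  | add p q hp hq =>
    rw [Polynomial.coe_add]
    exact add_mem hp hq
  | monomial n c =>
    rw [← Polynomial.C_mul_X_pow_eq_monomial, Polynomial.coe_mul, Polynomial.coe_C,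
      Polynomial.coe_pow, Polynomial.coe_X]
    exact mul_mem (Subalgebra.algebraMap_mem _ c) (pow_mem hX n)

/-- `-1` is a root of the Bernstein-Sato polynomial -/
theorem root_one {σ : Type} [Finite σ] {f : MvPolynomial σ ℂ} (hf : ∀ c, f ≠ MvPolynomial.C c) :
    (bfun f).eval (-1) = 0 := by
  have h0 : f ≠ 0 := by
    have := hf 0
    rwa [map_zero] at this
  have hu : ¬ IsUnit f := by
    intro h
    obtain ⟨r, -, hr⟩ := MvPolynomial.isUnit_iff_eq_C_of_isReduced.1 h
    exact hf r hr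
  obtain ⟨B, _, _, c, hc⟩ := wRoot_one Set.univ f h0 hu
  have hI : Ideal.span {b | LocalBS f b} ≤ RingHom.ker (Polynomial.evalRingHom (-1 : ℂ)) := by
    rw [Ideal.span_le]
    intro b hb
    exact root_of_chain Set.finite_univ (by
      rw [MvPolynomial.supported_univ]; trivial) c hc hb
  have h3 := hI (Submodule.IsPrincipal.generator_mem (Ideal.span {b | LocalBS f b}))
  rw [RingHom.mem_ker, Polynomial.coe_evalRingHom] at h3
  rw [bfun, normalize_apply, Polynomial.eval_mul, h3, zero_mul]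

/-- **the main theorem**, relative to the module statements -/
theorem main (hZ : ZfinStmt) (hC : CoreStmt) {k : Type} [Field k] [Algebra k ℂ] {σ : Type}
    [Fintype σ] {f : MvPolynomial σ k} (hf : ∀ c : k, f ≠ MvPolynomial.C c)
    (hS : Simplicial f.support) (hN : Nondeg f) (hB : NonB1Slopes f.support) :
    ∃ S : Finset (ℤ × ℕ),
      (∀ p ∈ S, p.1 < 0 ∧ 0 < p.2 ∧
        (bfun (MvPolynomial.map (algebraMap k ℂ) f)).eval ((p.1 : ℂ) / (p.2 : ℂ)) = 0) ∧
      Zf f ∈ zetaRing f S := by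
  classical
  have hinj : Function.Injective (algebraMap k ℂ) := (algebraMap k ℂ).injective
  have : CharZero k := (RingHom.charZero_iff hinj).2 inferInstance
  have hsupp : (MvPolynomial.map (algebraMap k ℂ) f).support = f.support :=
    MvPolynomial.support_map_of_injective _ hinj
  have hf0 : f ≠ 0 := by
    have := hf 0
    rwa [map_zero] at this
  have hf' : ∀ c : ℂ, MvPolynomial.map (algebraMap k ℂ) f ≠ MvPolynomial.C c := by
    intro c hc
    have h1 : f.support ⊆ {0} := by
      rw [← hsupp, hc]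
      intro α hα
      rw [MvPolynomial.mem_support_iff, MvPolynomial.coeff_C] at hα
      by_contra h2
      rw [Finset.mem_singleton] at h2
      rw [if_neg (Ne.symm h2)] at hα
      exact hα rfl
    apply hf (MvPolynomial.coeff 0 f)
    ext α
    rw [MvPolynomial.coeff_C]
    split_ifs with h2
    · rw [← h2]
    · by_contra h3
      have h4 := h1 (MvPolynomial.mem_support_iff.2 h3)
      exact h2 (Finset.mem_singleton.1 h4).symm
  have hroot : ∀ x ∈ slopes f.support ∪ {1},
      (bfun (MvPolynomial.map (algebraMap k ℂ) f)).eval (-(x : ℂ)) = 0 := by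
    rintro x (⟨κ, hκ, α, hα, hx⟩ | hx)
    · by_cases hx1 : x = 1
      · rw [hx1, Rat.cast_one]
        exact root_one hf'
      · obtain ⟨κ', hκ', hb, α', hα', hx'⟩ := hB κ x hκ ⟨α, hα, hx⟩ hx1
        have h1 := hC σ (MvPolynomial.map (algebraMap k ℂ) f) κ'
        rw [hsupp] at h1
        have h2 := h1 hS hκ' hb α' hα'
        rw [hx', Rat.cast_div, Rat.cast_natCast, Rat.cast_natCast]
        exact h2
    · rw [Set.mem_singleton_iff.1 hx, Rat.cast_one]
      exact root_one hf'
  obtain ⟨P, hP, hZ'⟩ := zeta_rat hZ hf0 hS hN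
  refine ⟨P, fun p hp => ?_, hZ'⟩
  obtain ⟨h1, h2, h3⟩ := hP p hp
  refine ⟨h1, h2, ?_⟩
  have h4 := hroot _ h3
  have h5 : (-(((-((p.1 : ℚ) / (p.2 : ℚ)) : ℚ) : ℚ) : ℂ)) = (p.1 : ℂ) / (p.2 : ℂ) := by
    push_cast
    ring
  rw [h5] at h4
  exact h4

end Pool.Agent.Helper30_Simp
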