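import Pool.Agent.Helper30_Simp.Defs
import Pool.Agent.Helper6_Mono.Main

/-!
# Functors for the strata of the jet spaces of a Newton-nondegenerate polynomial
-/

set_option autoImplicit false
set_option linter.unusedVariables false
set_option linter.unusedSectionVars false

namespace Pool.Agent.Helper30_Simp

open PowerSeries Finset Pool.Agent.Helper6_Mono

variable {k : Type} [Field k] {σ : Type} [Fintype σ] {W : Type} [AddCommGroup W]

/-! ### Tori -/

/-- weights on affine space for which `g` is homogeneous of weight `μ`; the torus with coordinates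
in `U` over the space of points, the coordinates with index in `J` being kept -/
structure TS (W : Type) [AddCommGroup W] (g : MvPolynomial σ k) where
  ν : σ → W
  μ : W
  hg : ∀ α ∈ g.support, Finsupp.weight ν α = μ
  U : Finset σ
  J : Finset σ
  hJ : ∀ i ∈ J, ν i = 0

variable {g : MvPolynomial σ k}

open scoped Classical in
/-- affine space over the space of points -/
@[reducible] noncomputable def TS.A (V : TS W g) : OverS k σ W where
  F := GF.pi k V.ν
  pt i := ⟨fun {S} _ _ x => if i ∈ V.J then x i else 0, fun {S S'} _ _ _ _ φ c x => by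
    show (if i ∈ V.J then chr c (V.ν i) * φ (x i) else 0)
      = chr c 0 * φ (if i ∈ V.J then x i else 0)
    split_ifs with h
    · rw [V.hJ i h]
    · rw [map_zero, mul_zero]⟩

theorem aeval_twist (V : TS W g) {S S' : Type} [CommRing S] [Algebra k S] [CommRing S']
    [Algebra k S'] (φ : S →ₐ[k] S') (c : Chr W S') (x : σ → S) :
    MvPolynomial.aeval (fun i => chr c (V.ν i) * φ (x i)) g
      = chr c V.μ * φ (MvPolynomial.aeval x g) :=
  aeval_tw_supp (wt := V.ν) (U := Set.univ) (fun α hα _ => V.hg α hα) φ c x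
    (fun i hi => absurd (Set.mem_univ i) hi)

/-- points of the torus with `g(x) = 0` -/
@[reducible] noncomputable def TT0 (V : TS W g) : OverS k σ W :=
  V.A.sub (fun S _ _ x => (∀ i, (i ∈ V.U → IsUnit (x i)) ∧ (i ∉ V.U → x i = 0)) ∧
      MvPolynomial.aeval x g = 0)
    (fun {S S'} _ _ _ _ φ c x hx => ⟨fun i => ⟨fun h => (chr_isUnit c _).mul
        (((hx.1 i).1 h).map φ), fun h => by
        show chr c (V.ν i) * φ (x i) = 0
        rw [(hx.1 i).2 h, map_zero, mul_zero]⟩, by
      show MvPolynomial.aeval (fun i => chr c (V.ν i) * φ (x i)) g = 0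
      rw [aeval_twist V, hx.2, map_zero, mul_zero]⟩)

/-- points of the torus with `g(x) = 1` -/
@[reducible] noncomputable def TT1 (V : TS W g) (hμ : V.μ = 0) : OverS k σ W :=
  V.A.sub (fun S _ _ x => (∀ i, (i ∈ V.U → IsUnit (x i)) ∧ (i ∉ V.U → x i = 0)) ∧
      MvPolynomial.aeval x g = 1)
    (fun {S S'} _ _ _ _ φ c x hx => ⟨fun i => ⟨fun h => (chr_isUnit c _).mul
        (((hx.1 i).1 h).map φ), fun h => by
        show chr c (V.ν i) * φ (x i) = 0
        rw [(hx.1 i).2 h, map_zero, mul_zero]⟩, by
      show MvPolynomial.aeval (fun i => chr c (V.ν i) * φ (x i)) g = 1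
      rw [aeval_twist V, hx.2, map_one, mul_one, hμ, chr_zero]⟩)

/-! ### Initial forms -/

/-- the part of `f` with exponents in `I` -/
noncomputable def part (f : MvPolynomial σ k) (I : Finset (σ →₀ ℕ)) : MvPolynomial σ k :=
  ∑ α ∈ I, MvPolynomial.monomial α (MvPolynomial.coeff α f)

theorem mem_of_mem_part_support {f : MvPolynomial σ k} {I : Finset (σ →₀ ℕ)} {α : σ →₀ ℕ}
    (h : α ∈ (part f I).support) : α ∈ I := by
  classical
  by_contra hα
  rw [MvPolynomial.mem_support_iff] at h
  apply h
  unfold part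
  rw [MvPolynomial.coeff_sum]
  refine Finset.sum_eq_zero fun β hβ => ?_
  rw [MvPolynomial.coeff_monomial, if_neg]
  rintro rfl
  exact hα hβ

/-- the weight vector `u` has the minimum `N` on `M`, attained exactly on `I`, and vanishes exactly
on `J` -/
structure CellS (M I : Finset (σ →₀ ℕ)) (J : Finset σ) (u : σ → ℕ) (N : ℕ) : Prop where
  zero : ∀ i, u i = 0 ↔ i ∈ J
  sub : I ⊆ M
  ne : I.Nonempty
  eq : ∀ α ∈ I, dot u α = N
  lt : ∀ β ∈ M, β ∉ I → N < dot u β

open scoped Classical in
/-- the torus of the leading coefficients of the jets with orders `u`, truncated at `t ^ m` -/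
@[reducible] noncomputable def TSu {f : MvPolynomial σ k} {I : Finset (σ →₀ ℕ)} {J : Finset σ}
    {u : σ → ℕ} {N : ℕ} (h : CellS f.support I J u N) (m : ℕ) (ω : W) : TS W (part f I) where
  ν i := u i • ω
  μ := N • ω
  hg α hα := by
    rw [← h.eq α (mem_of_mem_part_support hα), Finsupp.weight_apply, Finsupp.sum_fintype _ _
      (fun i => by rw [zero_smul]), dot, Finset.sum_smul]
    refine Finset.sum_congr rfl fun i _ => ?_
    rw [smul_smul, mul_comm]
    rfl
  U := univ.filter fun i => u i ≤ m
  J := J
  hJ i hi := by rw [(h.zero i).2 hi, zero_smul]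

/-! ### Jets with given orders -/

/-- the indices of the coefficients from the order to the last one -/
def DU (u : σ → ℕ) (m : ℕ) : Set (σ × ℕ) := {p | u p.1 ≤ p.2 ∧ p.2 ≤ m}

/-- families of series with support in `D` over the space of points -/
@[reducible] noncomputable def SupS (k : Type) [Field k] (D : Set (σ × ℕ)) (ω : W) :
    OverS k σ W where
  F := GF.sup k D ω
  pt i := ⟨fun γ => coeff 0 (γ.1 i), fun φ c γ => by
    show coeff 0 (twS ω φ c (γ.1 i)) = _
    rw [coeff_twS, zero_smul]⟩

/-- the families `γ` of series truncated at `t ^ m` with `f(γ) = t ^ m` modulo `t ^ (m + 1)` and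
with orders `u` (`γ i = 0` if `u i = m + 1`) -/
@[reducible] noncomputable def FS (f : MvPolynomial σ k) (u : σ → ℕ) (m : ℕ) (ω : W)
    (hω : m • ω = 0) : OverS k σ W :=
  (SupS k (DU u m) ω).sub (fun S _ _ γ => (∀ i, u i ≤ m → IsUnit (coeff (u i) (γ.1 i))) ∧
      ∀ c ≤ m, coeff c (MvPolynomial.aeval γ.1 f) = if c = m then 1 else 0)
    (fun {S S'} _ _ _ _ φ c γ hγ => ⟨fun i hi => by
        show IsUnit (coeff (u i) (twS ω φ c (γ.1 i)))
        rw [coeff_twS]
        exact (chr_isUnit c _).mul ((hγ.1 i hi).map φ), fun e he => by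
        show coeff e (MvPolynomial.aeval (fun i => twS ω φ c (γ.1 i)) f) = _
        have : MvPolynomial.aeval (fun i => twS ω φ c (γ.1 i)) f
            = twS ω φ c (MvPolynomial.aeval γ.1 f) := by
          rw [← MvPolynomial.comp_aeval_apply]
        rw [this, coeff_twS, hγ.2 e he]
        split_ifs with h
        · rw [h, hω, chr_zero, map_one, mul_one]
        · rw [map_zero, mul_zero]⟩)

end Pool.Agent.Helper30_Simp
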